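import Pool.Agent.N20.DI.Stm2
import Pool.Agent.Y405.NV.Rinj

set_option autoImplicit false

/-!
# An invariant class function separating an invariant block from the other blocks

The idempotent of a block is constructed as in `Pool/Agent/N85/WM/Sep.lean` (helper85).
-/

open scoped Classical BigOperators

noncomputable section

namespace Pool.Agent.N342.DI1

open Pool.Agent.Y63.NV
open Pool.Agent.Y405.NV
open Pool.Agent.N20.DI

section

variable {F : Type} [Field F] {G : Type} [Group G]

/-- two blocks are equal: they agree on the class functions -/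
def BEq (B B' : (G → F) → F) : Prop := ∀ f : G → F, IsClassFun f → B f = B' f

theorem BEq.symm {B B' : (G → F) → F} (h : BEq B B') : BEq B' B := fun f hf => (h f hf).symm

theorem cl_add {f g : G → F} (hf : IsClassFun f) (hg : IsClassFun g) : IsClassFun (f + g) :=
  fun a x => by rw [Pi.add_apply, Pi.add_apply, hf, hg]

theorem cl_smul (a : F) {f : G → F} (hf : IsClassFun f) : IsClassFun (a • f) :=
  fun b x => by rw [Pi.smul_apply, Pi.smul_apply, hf]

theorem cl_one [Finite G] : IsClassFun (Pi.single (1 : G) (1 : F)) := by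
  have := class_const (H := G) (1 : F)
  rwa [one_smul] at this

theorem cl_conv [Finite G] {f g : G → F} (hf : IsClassFun f) (hg : IsClassFun g) :
    IsClassFun (conv f g) := by
  have h := (class_iff (ofC f hf * ofC g hg).1).mp (ofC f hf * ofC g hg).2
  have h2 : (fun x => (ofC f hf * ofC g hg).1.coeff x) = conv f g := coeff_mul_eq _ _
  rwa [h2] at h

/-- separation of a block from one other block -/
theorem sep_one [Finite G] {B B' : (G → F) → F} (hB : IsBlock B) (hB' : IsBlock B') (h : ¬ BEq B B') :
    ∃ e : G → F, IsClassFun e ∧ B e = 1 ∧ B' e = 0 := by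
  unfold BEq at h
  push Not at h
  obtain ⟨f, hf, hne⟩ := h
  have h1 : IsClassFun (Pi.single (1 : G) (1 : F)) := cl_one
  have hd : B f - B' f ≠ 0 := sub_ne_zero.mpr hne
  refine ⟨(B f - B' f)⁻¹ • (f + (-(B' f)) • Pi.single (1 : G) (1 : F)), ?_, ?_, ?_⟩
  · exact cl_smul _ (cl_add hf (cl_smul _ h1))
  · rw [hB.smul _ _ (cl_add hf (cl_smul _ h1)), hB.add _ _ hf (cl_smul _ h1), hB.smul _ _ h1,
      hB.one]
    field_simp
    ring
  · rw [hB'.smul _ _ (cl_add hf (cl_smul _ h1)), hB'.add _ _ hf (cl_smul _ h1), hB'.smul _ _ h1,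
      hB'.one]
    ring

/-- separation of a block from finitely many other blocks -/
theorem sep_list [Finite G] {B : (G → F) → F} (hB : IsBlock B) (S : List ((G → F) → F))
    (hS : ∀ B' ∈ S, IsBlock B' ∧ ¬ BEq B B') :
    ∃ e : G → F, IsClassFun e ∧ B e = 1 ∧ ∀ B' ∈ S, B' e = 0 := by
  induction S with
  | nil =>
    exact ⟨Pi.single 1 1, cl_one, hB.one, by simp⟩
  | cons A S ih =>
    obtain ⟨e, he, h1, h2⟩ := ih fun B' h => hS B' (List.mem_cons_of_mem _ h)
    have hA := hS A List.mem_cons_self
    obtain ⟨d, hd, h3, h4⟩ := sep_one hB hA.1 hA.2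
    refine ⟨conv e d, cl_conv he hd, ?_, ?_⟩
    · rw [hB.mul _ _ he hd, h1, h3, one_mul]
    · intro B' hB'
      rcases List.mem_cons.mp hB' with rfl | h
      · rw [hA.1.mul _ _ he hd, h4, mul_zero]
      · rw [(hS B' hB').1.mul _ _ he hd, h2 B' h, zero_mul]

/-- blocks as linear functionals: a family of pairwise different blocks has at most `|G|` members -/
theorem card_le [Finite G] (S : List ((G → F) → F)) (hS : ∀ B ∈ S, IsBlock B)
    (hd : S.Pairwise fun B B' => ¬ BEq B B') : S.length ≤ Nat.card G := by
  have : Fintype G := Fintype.ofFinite G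
  have key : ∀ i : Fin S.length, ∃ e : G → F, IsClassFun e ∧ S.get i e = 1 ∧
      ∀ j : Fin S.length, j ≠ i → S.get j e = 0 := by
    intro i
    obtain ⟨e, he, h1, h2⟩ := sep_list (hS _ (S.get_mem i))
      (((List.finRange S.length).filter (fun j => j ≠ i)).map S.get) (by
        intro B' hB'
        obtain ⟨j, hj, rfl⟩ := List.mem_map.mp hB'
        have hji : j ≠ i := by simpa using (List.mem_filter.mp hj).2
        refine ⟨hS _ (S.get_mem j), ?_⟩
        rw [List.pairwise_iff_get] at hd
        rcases lt_or_gt_of_ne hji with h | h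
        · exact fun hh => hd j i h hh.symm
        · exact hd i j h)
    refine ⟨e, he, h1, fun j hj => h2 _ (List.mem_map.mpr ⟨j, ?_, rfl⟩)⟩
    exact List.mem_filter.mpr ⟨List.mem_finRange j, by simpa using hj⟩
  choose e he h1 h2 using key
  have hli : LinearIndependent F e := by
    rw [Fintype.linearIndependent_iff]
    intro a ha i
    have hB := hS _ (S.get_mem i)
    -- evaluate the block on the sum
    have hsum : ∀ T : Finset (Fin S.length), IsClassFun (∑ j ∈ T, a j • e j) ∧
        S.get i (∑ j ∈ T, a j • e j) = ∑ j ∈ T, a j * S.get i (e j) := by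
      intro T
      induction T using Finset.induction_on with
      | empty =>
        have h0 : IsClassFun (0 : G → F) := fun _ _ => rfl
        refine ⟨by rw [Finset.sum_empty]; exact h0, ?_⟩
        rw [Finset.sum_empty, Finset.sum_empty]
        have := hB.smul 0 0 h0
        rwa [zero_smul, zero_mul] at this
      | insert k T hk ih =>
        rw [Finset.sum_insert hk, Finset.sum_insert hk]
        refine ⟨cl_add (cl_smul _ (he k)) ih.1, ?_⟩
        rw [hB.add _ _ (cl_smul _ (he k)) ih.1, hB.smul _ _ (he k), ih.2]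
    have h3 := (hsum Finset.univ).2
    rw [ha] at h3
    have h0 : IsClassFun (0 : G → F) := fun _ _ => rfl
    have h4 : S.get i (0 : G → F) = 0 := by
      have := hB.smul 0 0 h0
      rwa [zero_smul, zero_mul] at this
    rw [h4, Finset.sum_eq_single i] at h3
    · rw [h1, mul_one] at h3
      exact h3.symm
    · intro j _ hj
      rw [h2 j i (fun h => hj h.symm), mul_zero]
    · intro h
      exact absurd (Finset.mem_univ _) h
  have h5 := hli.fintype_card_le_finrank
  rw [Fintype.card_fin, Module.finrank_pi] at h5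
  rwa [Nat.card_eq_fintype_card]

/-- every block has an idempotent -/
theorem exists_idem [Finite G] {B : (G → F) → F} (hB : IsBlock B) :
    ∃ e : G → F, IsClassFun e ∧ (∀ B' : (G → F) → F, IsBlock B' → B' e = 0 ∨ B' e = 1) ∧ B e = 1 ∧
      ∀ B' : (G → F) → F, IsBlock B' → B' e = 1 → BEq B B' := by
  -- a maximal list of pairwise different blocks, different from `B`
  let P : ℕ → Prop := fun n => ∃ S : List ((G → F) → F), S.length = n ∧
    (∀ B' ∈ S, IsBlock B' ∧ ¬ BEq B B') ∧ S.Pairwise fun B B' => ¬ BEq B B'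
  have hP0 : P 0 := ⟨[], rfl, by simp, List.Pairwise.nil⟩
  have hb : ∀ n, P n → n ≤ Nat.card G := by
    rintro n ⟨S, rfl, h1, h2⟩
    exact card_le S (fun B' h => (h1 B' h).1) h2
  obtain ⟨S, hl, hS, hd⟩ := Nat.findGreatest_spec (P := P) (Nat.zero_le (Nat.card G)) hP0
  have hmax : ∀ B' : (G → F) → F, IsBlock B' → ¬ BEq B B' → ∃ A ∈ S, BEq B' A := by
    intro B' hB' hne
    by_contra hcon
    push Not at hcon
    have h1 : P (S.length + 1) := by
      refine ⟨B' :: S, rfl, ?_, ?_⟩
      · intro A hA
        rcases List.mem_cons.mp hA with rfl | h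
        · exact ⟨hB', hne⟩
        · exact hS A h
      · exact List.Pairwise.cons hcon hd
    have h2 := Nat.le_findGreatest (hb _ h1) h1
    rw [← hl] at h2
    omega
  obtain ⟨e, he, h1, h2⟩ := sep_list hB S hS
  have hz : ∀ B' : (G → F) → F, IsBlock B' → ¬ BEq B B' → B' e = 0 := by
    intro B' hB' hne
    obtain ⟨A, hA, hBA⟩ := hmax B' hB' hne
    rw [hBA e he]
    exact h2 A hA
  refine ⟨e, he, fun B' hB' => ?_, h1, fun B' hB' h => ?_⟩
  · by_cases h : BEq B B'
    · exact Or.inr (by rw [← h e he, h1])
    · exact Or.inl (hz B' hB' h)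
  · by_contra hne
    rw [hz B' hB' hne] at h
    exact zero_ne_one h

end

section

variable {F : Type} [Field F] {E : Type} [Group E] [Finite E] (G : Subgroup E) [G.Normal]

/-- the unit -/
theorem single_conj {H : Type} [Group H] (φ : H ≃* H) :
    (fun x : H => (Pi.single (1 : H) (1 : F) : H → F) (φ x)) = Pi.single 1 1 := by
  funext x
  rw [Pi.single_apply, Pi.single_apply]
  by_cases hx : x = 1
  · rw [if_pos hx, if_pos (by rw [hx, map_one])]
  · rw [if_neg hx, if_neg (fun h => hx (by rwa [EmbeddingLike.map_eq_one_iff] at h))]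

/-- the conjugate of a function -/
theorem cl_conj (g : E) {f : G → F} (hf : IsClassFun f) :
    IsClassFun (fun x => f ((MulAut.conjNormal (H := G) g).symm x)) := by
  intro a x
  simp only [map_mul, map_inv]
  exact hf _ _

/-- the conjugate of a block is a block -/
theorem block_conj (g : E) {B : (G → F) → F} (hB : IsBlock B) :
    IsBlock (fun f : G → F => B (fun x => f ((MulAut.conjNormal (H := G) g).symm x))) where
  add f f' hf hf' := hB.add _ _ (cl_conj G g hf) (cl_conj G g hf')
  smul a f hf := hB.smul a _ (cl_conj G g hf)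
  one := by
    exact Eq.trans (congrArg B (single_conj (F := F) (MulAut.conjNormal (H := G) g).symm)) hB.one
  mul f f' hf hf' := by
    have h : (fun x : G => conv f f' ((MulAut.conjNormal (H := G) g).symm x)) =
        conv (fun x => f ((MulAut.conjNormal (H := G) g).symm x))
          (fun x => f' ((MulAut.conjNormal (H := G) g).symm x)) := by
      funext x
      unfold conv
      refine finsum_eq_of_bijective (MulAut.conjNormal (H := G) g)
        (MulAut.conjNormal (H := G) g).bijective fun y => ?_
      simp only [map_mul, map_inv, MulEquiv.symm_apply_apply]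
    exact (congrArg B h).trans (hB.mul _ _ (cl_conj G g hf) (cl_conj G g hf'))

/-- the norm over the subgroup `K` -/
def nrK (K : Subgroup E) (z : Subring.center (MonoidAlgebra F G)) :
    Subring.center (MonoidAlgebra F G) :=
  letI := Fintype.ofFinite K
  ∏ g : K, sg G (g : E) z

theorem sg_nrK (K : Subgroup E) (h : E) (hh : h ∈ K) (z : Subring.center (MonoidAlgebra F G)) :
    sg G h (nrK G K z) = nrK G K z := by
  letI := Fintype.ofFinite K
  unfold nrK
  rw [map_prod]
  simp only [sg_sg]
  exact Equiv.prod_comp (Equiv.mulLeft (⟨h, hh⟩ : K))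
    (fun g : K => (sg G (g : E) z : Subring.center (MonoidAlgebra F G)))

end

theorem INV1 : S_INV1 := by
  intro F _ _ E _ _ G K _ hGK B hB hI
  obtain ⟨e, he, hv, h1, hB1⟩ := exists_idem hB
  let w := nrK G K (ofC e he)
  let zz : E → F := fun x => if hx : x ∈ G then w.1.coeff ⟨x, hx⟩ else 0
  have hzz : ∀ x : G, zz x = w.1.coeff x := fun x => dif_pos x.2
  have hfun : (fun x : G => zz x) = fun x : G => w.1.coeff x := funext hzz
  have hval : ∀ B' : (G → F) → F, ∀ hB' : IsBlock B', B' (fun x : G => zz x) = toRH hB' w := by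
    intro B' hB'
    rw [hfun]
    rfl
  letI := Fintype.ofFinite K
  have hprod : ∀ B' : (G → F) → F, ∀ hB' : IsBlock B', toRH hB' w =
      ∏ g : K, B' (fun x => e ((MulAut.conjNormal (H := G) (g : E)).symm x)) := by
    intro B' hB'
    have hw : w = ∏ g : K, sg G (g : E) (ofC e he) := rfl
    rw [hw, map_prod]
    refine Finset.prod_congr rfl fun g _ => ?_
    rw [toRH_apply]
    congr 1
    funext x
    rw [coeff_sg]
    rfl
  refine ⟨zz, ?_, fun x hx => dif_neg hx, ?_, ?_⟩
  · intro g hg x
    by_cases hx : x ∈ G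
    · have hx' : g * x * g⁻¹ ∈ G := (inferInstance : G.Normal).conj_mem x hx g
      have h1 := hzz ⟨x, hx⟩
      have h2 := hzz ⟨g * x * g⁻¹, hx'⟩
      simp only at h1 h2
      rw [h1, h2]
      have h3 : (sg G g w).1.coeff ⟨g * x * g⁻¹, hx'⟩ = w.1.coeff ⟨g * x * g⁻¹, hx'⟩ := by
        rw [sg_nrK G K g hg]
      rw [← h3, coeff_sg, conj_symm_eq G (x := ⟨x, hx⟩) (y := ⟨g * x * g⁻¹, hx'⟩) rfl]
    · have hx' : g * x * g⁻¹ ∉ G := by
        intro h
        apply hx
        have := (inferInstance : G.Normal).conj_mem _ h g⁻¹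
        simpa [mul_assoc] using this
      rw [show zz (g * x * g⁻¹) = 0 from dif_neg hx', show zz x = 0 from dif_neg hx]
  · rw [hval B hB, hprod B hB]
    refine Finset.prod_eq_one fun g _ => ?_
    rw [hI (g : E) g.2 e (fun x => e ((MulAut.conjNormal (H := G) (g : E)).symm x)) he
      (fun x y hxy => by rw [conj_symm_eq G hxy]), h1]
  · intro B' hB' hw
    rw [hval B' hB', hprod B' hB'] at hw
    have h2 : B' (fun x => e ((MulAut.conjNormal (H := G) ((1 : K) : E)).symm x)) ≠ 0 := by
      intro h0
      rw [Finset.prod_eq_zero (Finset.mem_univ (1 : K)) h0] at hw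
      exact zero_ne_one hw
    have h3 : (fun x : G => e ((MulAut.conjNormal (H := G) ((1 : K) : E)).symm x)) = e := by
      funext x
      rw [Subgroup.coe_one, map_one]
      rfl
    rw [h3] at h2
    have h4 := (hv B' hB').resolve_left h2
    exact fun f hf => (hB1 B' hB' h4 f hf).symm

end Pool.Agent.N342.DI1
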