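import Pool.Agent.N604.MW.Stm12

/-! # Project AK, parts KLOW and KLAT: lower bounds and lattice points -/

set_option autoImplicit false

namespace Pool.Agent.N342.AK_Low

open Finset MeasureTheory Filter Pool.Agent.N604.MW

/-- the lower order terms -/
noncomputable def lo (d : ℕ) (θ : Fin d → ℝ) (x : ℤ) : ℝ :=
  ∑ l : Fin d, θ l * (x : ℝ) ^ ((l : ℕ) + 1)

lemma pk_eq (d : ℕ) (c : ℝ) (θ : Fin d → ℝ) (x : ℤ) :
    pk d c θ x = c * |(x : ℝ)| ^ (d + 1) + lo d θ x := rfl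

/-- the sum of the absolute values of the coefficients -/
noncomputable def MM (d : ℕ) (θ : Fin d → ℝ) : ℝ := ∑ l, |θ l|

lemma MM_nonneg (d : ℕ) (θ : Fin d → ℝ) : 0 ≤ MM d θ := Finset.sum_nonneg fun _ _ => abs_nonneg _

lemma lo_le (d : ℕ) (θ : Fin d → ℝ) (x : ℤ) : |lo d θ x| ≤ MM d θ * |(x : ℝ)| ^ d := by
  unfold lo
  rcases eq_or_ne x 0 with rfl | hx
  · have h0 : ∑ l : Fin d, θ l * (((0 : ℤ) : ℝ)) ^ ((l : ℕ) + 1) = 0 :=
      Finset.sum_eq_zero fun l _ => by simp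
    rw [h0, abs_zero]
    exact mul_nonneg (MM_nonneg d θ) (by positivity)
  · have h1 : (1 : ℝ) ≤ |(x : ℝ)| := by
      rw [← Int.cast_abs]
      exact_mod_cast Int.one_le_abs hx
    unfold MM
    rw [Finset.sum_mul]
    refine (Finset.abs_sum_le_sum_abs _ _).trans (Finset.sum_le_sum fun l _ => ?_)
    rw [abs_mul, abs_pow]
    exact mul_le_mul_of_nonneg_left (pow_le_pow_right₀ h1 l.2) (abs_nonneg _)

/-- the constant in the lower bound -/
noncomputable def BB (d : ℕ) (c : ℝ) (θ : Fin d → ℝ) : ℝ := MM d θ * (2 * MM d θ / c) ^ d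

lemma BB_nonneg (d : ℕ) {c : ℝ} (hc : 0 < c) (θ : Fin d → ℝ) : 0 ≤ BB d c θ := by
  have := MM_nonneg d θ
  unfold BB
  positivity

lemma one (d : ℕ) {c : ℝ} (hc : 0 < c) (θ : Fin d → ℝ) (x : ℤ) :
    c / 2 * |(x : ℝ)| ^ (d + 1) ≤ pk d c θ x + BB d c θ := by
  have h1 := (abs_le.1 (lo_le d θ x)).1
  have hM := MM_nonneg d θ
  have hB := BB_nonneg d hc θ
  rw [pk_eq]
  set t := |(x : ℝ)| with ht'
  have ht : 0 ≤ t := abs_nonneg _
  have key : MM d θ * t ^ d ≤ c / 2 * t ^ (d + 1) + BB d c θ := by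
    rcases le_total (2 * MM d θ / c) t with h | h
    · have h2 : MM d θ ≤ c / 2 * t := by
        rw [div_le_iff₀ hc] at h
        linarith
      have h3 : MM d θ * t ^ d ≤ c / 2 * t * t ^ d :=
        mul_le_mul_of_nonneg_right h2 (pow_nonneg ht d)
      have h4 : c / 2 * t * t ^ d = c / 2 * t ^ (d + 1) := by rw [pow_succ]; ring
      linarith
    · have h2 : t ^ d ≤ (2 * MM d θ / c) ^ d := pow_le_pow_left₀ ht h d
      have h3 : MM d θ * t ^ d ≤ BB d c θ := mul_le_mul_of_nonneg_left h2 hM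
      have h4 : 0 ≤ c / 2 * t ^ (d + 1) := by positivity
      linarith
  have h5 : c * t ^ (d + 1) = c / 2 * t ^ (d + 1) + c / 2 * t ^ (d + 1) := by ring
  linarith

theorem klow : S_KLOW := by
  intro s d c θ hc
  obtain ⟨c0, hc0, hc0'⟩ : ∃ c0 : ℝ, 0 < c0 ∧ ∀ i, c0 ≤ c i / 2 := by
    rcases isEmpty_or_nonempty (Fin s) with h | h
    · exact ⟨1, one_pos, fun i => h.elim i⟩
    · obtain ⟨i0, hi0⟩ := Finite.exists_min c
      exact ⟨c i0 / 2, half_pos (hc i0), fun i => by linarith [hi0 i]⟩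
  refine ⟨⌈∑ i, BB d (c i) (θ i)⌉₊, c0, hc0, fun i x => ?_⟩
  have hB : BB d (c i) (θ i) ≤ (⌈∑ i, BB d (c i) (θ i)⌉₊ : ℝ) :=
    (Finset.single_le_sum (fun j _ => BB_nonneg d (hc j) (θ j)) (mem_univ i)).trans (Nat.le_ceil _)
  have h1 := one d (hc i) (θ i) x
  have h2 : c0 * |(x : ℝ)| ^ (d + 1) ≤ c i / 2 * |(x : ℝ)| ^ (d + 1) :=
    mul_le_mul_of_nonneg_right (hc0' i) (by positivity)
  have h3 : 0 ≤ c0 * |(x : ℝ)| ^ (d + 1) := by positivity
  constructor <;> linarith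

/-- the set of lattice points is finite -/
lemma finG (s d : ℕ) (c : Fin s → ℝ) (hc : ∀ i, 0 < c i) (z : ℝ) :
    {x : Fin s → ℤ | ∑ i, c i * |(x i : ℝ)| ^ (d + 1) < z}.Finite := by
  set R : ℤ := ⌈∑ i, |z| / c i⌉ with hR
  refine (Set.finite_Icc (fun _ : Fin s => -R) (fun _ => R)).subset fun x hx => ?_
  have h1 : ∀ i, |(x i : ℝ)| ≤ R := by
    intro i
    have h2 : c i * |(x i : ℝ)| ^ (d + 1) ≤ ∑ i, c i * |(x i : ℝ)| ^ (d + 1) :=
      Finset.single_le_sum (f := fun i => c i * |(x i : ℝ)| ^ (d + 1))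
        (fun j _ => mul_nonneg (hc j).le (by positivity)) (mem_univ i)
    have hx' : ∑ i, c i * |(x i : ℝ)| ^ (d + 1) < z := hx
    have h3 : |(x i : ℝ)| ≤ |(x i : ℝ)| ^ (d + 1) := by
      rcases eq_or_ne (x i) 0 with h0 | h0
      · rw [h0]
        simp
      · have h4 : (1 : ℝ) ≤ |(x i : ℝ)| := by
          rw [← Int.cast_abs]
          exact_mod_cast Int.one_le_abs h0
        exact le_self_pow₀ h4 (by omega)
    have h5 : c i * |(x i : ℝ)| ≤ c i * |(x i : ℝ)| ^ (d + 1) :=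
      mul_le_mul_of_nonneg_left h3 (hc i).le
    have h6 : |(x i : ℝ)| ≤ |z| / c i := by
      rw [le_div_iff₀ (hc i)]
      have := le_abs_self z
      linarith
    have h7 : |z| / c i ≤ ∑ i, |z| / c i :=
      Finset.single_le_sum (f := fun i => |z| / c i)
        (fun j _ => div_nonneg (abs_nonneg z) (hc j).le) (mem_univ i)
    exact (h6.trans h7).trans (Int.le_ceil _)
  constructor
  · intro i
    have := (abs_le.1 (h1 i)).1
    show -R ≤ x i
    exact_mod_cast this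
  · intro i
    have := (abs_le.1 (h1 i)).2
    show x i ≤ R
    exact_mod_cast this

/-- comparison with the leading terms -/
lemma diff (s d b : ℕ) (c : Fin s → ℝ) (θ : Fin s → Fin d → ℝ) (x : Fin s → ℤ) :
    |∑ i, (pk d (c i) (θ i) (x i) + b) - ∑ i, c i * |(x i : ℝ)| ^ (d + 1)| ≤
      ∑ i, (∑ i, MM d (θ i) + b) * (|(x i : ℝ)| ^ d + 1) := by
  rw [← Finset.sum_sub_distrib]
  refine (Finset.abs_sum_le_sum_abs _ _).trans (Finset.sum_le_sum fun i _ => ?_)
  have e : pk d (c i) (θ i) (x i) + b - c i * |(x i : ℝ)| ^ (d + 1) = lo d (θ i) (x i) + b := by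
    rw [pk_eq]
    ring
  rw [e]
  have h1 := lo_le d (θ i) (x i)
  have h2 : MM d (θ i) ≤ ∑ i, MM d (θ i) :=
    Finset.single_le_sum (fun j _ => MM_nonneg d (θ j)) (mem_univ i)
  have h3 : 0 ≤ |(x i : ℝ)| ^ d := by positivity
  have h4 : (0 : ℝ) ≤ b := Nat.cast_nonneg b
  have h5 := MM_nonneg d (θ i)
  calc |lo d (θ i) (x i) + b| ≤ |lo d (θ i) (x i)| + |(b : ℝ)| := abs_add_le _ _
    _ = |lo d (θ i) (x i)| + b := by rw [abs_of_nonneg h4]
    _ ≤ _ := by nlinarith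

/-- the size of the lower order powers -/
lemma pow_bd {d : ℕ} {t K y : ℝ} (ht : 0 ≤ t) (hK : 1 ≤ K) (hy : 1 ≤ y)
    (h : t ^ (d + 1) ≤ K * y) : t ^ d ≤ K * (y * y ^ (-(1 / ((d + 1 : ℕ) : ℝ)))) := by
  have hk : (0 : ℝ) < ((d + 1 : ℕ) : ℝ) := by positivity
  have hd : (0 : ℝ) ≤ (d : ℝ) / ((d + 1 : ℕ) : ℝ) := by positivity
  have hd1 : (d : ℝ) / ((d + 1 : ℕ) : ℝ) ≤ 1 := by
    rw [div_le_one hk]
    push_cast
    linarith
  have h1 : t ^ d = (t ^ (d + 1)) ^ ((d : ℝ) / ((d + 1 : ℕ) : ℝ)) := by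
    rw [← Real.rpow_natCast t (d + 1), ← Real.rpow_mul ht]
    rw [mul_div_cancel₀ _ hk.ne', Real.rpow_natCast]
  have h2 : (t ^ (d + 1)) ^ ((d : ℝ) / ((d + 1 : ℕ) : ℝ)) ≤
      (K * y) ^ ((d : ℝ) / ((d + 1 : ℕ) : ℝ)) := Real.rpow_le_rpow (by positivity) h hd
  have h3 : (K * y) ^ ((d : ℝ) / ((d + 1 : ℕ) : ℝ)) =
      K ^ ((d : ℝ) / ((d + 1 : ℕ) : ℝ)) * y ^ ((d : ℝ) / ((d + 1 : ℕ) : ℝ)) :=
    Real.mul_rpow (by linarith) (by linarith)
  have h4 : K ^ ((d : ℝ) / ((d + 1 : ℕ) : ℝ)) ≤ K := by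
    have := Real.rpow_le_rpow_of_exponent_le hK hd1
    rwa [Real.rpow_one] at this
  have h5 : y ^ ((d : ℝ) / ((d + 1 : ℕ) : ℝ)) = y * y ^ (-(1 / ((d + 1 : ℕ) : ℝ))) := by
    have e : (d : ℝ) / ((d + 1 : ℕ) : ℝ) = 1 + -(1 / ((d + 1 : ℕ) : ℝ)) := by
      field_simp
      push_cast
      ring
    rw [e, Real.rpow_add (by linarith), Real.rpow_one]
  rw [h1]
  refine h2.trans ?_
  rw [h3, h5]
  exact mul_le_mul_of_nonneg_right h4 (by positivity)

lemma up_pow {e u M : ℝ} (he : 0 ≤ e) (hu : 0 ≤ u) (huM : u ≤ M) :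
    (1 + u) ^ e ≤ 1 + e * u * Real.exp (e * M) := by
  have h1 : (1 + u) ^ e ≤ Real.exp (e * u) := by
    rw [Real.rpow_def_of_pos (by linarith)]
    apply Real.exp_le_exp.2
    have h2 := Real.log_le_sub_one_of_pos (by linarith : 0 < 1 + u)
    nlinarith
  have h2 : 1 - e * u ≤ Real.exp (-(e * u)) := by
    have := Real.add_one_le_exp (-(e * u))
    linarith
  have h3 : Real.exp (e * u) * Real.exp (-(e * u)) = 1 := by
    rw [← Real.exp_add, add_neg_cancel, Real.exp_zero]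
  have h4 : 0 < Real.exp (e * u) := Real.exp_pos _
  have h5 : Real.exp (e * u) ≤ 1 + e * u * Real.exp (e * u) := by nlinarith
  have h6 : Real.exp (e * u) ≤ Real.exp (e * M) :=
    Real.exp_le_exp.2 (mul_le_mul_of_nonneg_left huM he)
  have h7 : 0 ≤ e * u := mul_nonneg he hu
  have h8 : e * u * Real.exp (e * u) ≤ e * u * Real.exp (e * M) :=
    mul_le_mul_of_nonneg_left h6 h7
  linarith

lemma low_pow {e u : ℝ} (he : 0 ≤ e) (hu : 0 ≤ u) (hu2 : u ≤ 1 / 2) :
    1 - 2 * e * u ≤ (1 - u) ^ e := by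
  have h0 : 0 < 1 - u := by linarith
  have h1 : -(2 * u) ≤ Real.log (1 - u) := by
    have h2 := Real.log_le_sub_one_of_pos (inv_pos.2 h0)
    rw [Real.log_inv] at h2
    have h3 : (1 - u)⁻¹ - 1 ≤ 2 * u := by
      rw [sub_le_iff_le_add, inv_le_comm₀ h0 (by linarith)]
      rw [inv_le_iff_one_le_mul₀ (by linarith)]
      nlinarith
    linarith
  rw [Real.rpow_def_of_pos h0]
  have h4 := Real.add_one_le_exp (Real.log (1 - u) * e)
  nlinarith

theorem klat (h : S_ALAT) : S_KLAT := by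
  intro s d b c θ hs hc hpos
  obtain ⟨C0, hC0, hG0⟩ := h s (d + 1) c 0 hs (by omega) hc
  set κ : ℝ := 1 / ((d + 1 : ℕ) : ℝ) with hκ
  set e : ℝ := (s : ℝ) / ((d + 1 : ℕ) : ℝ) with he
  set e' : ℝ := ((s : ℝ) - 1) / ((d + 1 : ℕ) : ℝ) with he'
  set V : ℝ := (2 * Real.Gamma (1 + κ)) ^ s / Real.Gamma (1 + e) * ∏ i, c i ^ (-κ) with hV
  have hk : (0 : ℝ) < ((d + 1 : ℕ) : ℝ) := by positivity
  have hk1 : (1 : ℝ) ≤ ((d + 1 : ℕ) : ℝ) := by push_cast; linarith [Nat.cast_nonneg (α := ℝ) d]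
  have hs1 : (1 : ℝ) ≤ s := by exact_mod_cast hs
  have hκ0 : 0 < κ := by positivity
  have hκ1 : κ ≤ 1 := by rw [hκ, div_le_one hk]; exact hk1
  have he0 : 0 ≤ e := by positivity
  have he'0 : 0 ≤ e' := div_nonneg (by linarith) hk.le
  have hee : e' = e + -κ := by rw [he, he', hκ]; ring
  have hV0 : 0 ≤ V := by
    rw [hV]
    have h1 : 0 < Real.Gamma (1 + κ) := Real.Gamma_pos_of_pos (by linarith)
    have h2 : 0 < Real.Gamma (1 + e) := Real.Gamma_pos_of_pos (by linarith)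
    have h3 : 0 ≤ ∏ i, c i ^ (-κ) := Finset.prod_nonneg fun i _ => Real.rpow_nonneg (hc i).le _
    positivity
  set F : (Fin s → ℤ) → ℝ := fun x => ∑ i, (pk d (c i) (θ i) (x i) + b) with hF
  set G : (Fin s → ℤ) → ℝ := fun x => ∑ i, c i * |(x i : ℝ)| ^ (d + 1) with hG
  have hG1 : ∀ z : ℝ, 1 ≤ z → |(({x | G x < z}.ncard : ℕ) : ℝ) - V * z ^ e| ≤ C0 * z ^ e' := by
    intro z hz
    have h1 := hG0 z hz
    have e1 : CF (fun i x => c i * |(x : ℝ) - (0 : Fin s → ℝ) i| ^ (d + 1)) z =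
        {x | G x < z}.ncard := by
      unfold CF
      simp only [Pi.zero_apply, sub_zero]
      rfl
    rw [e1] at h1
    exact h1
  -- the constants
  have hBn : ∀ i, 0 ≤ BB d (c i) (θ i) := fun i => BB_nonneg d (hc i) (θ i)
  set K : ℝ := 1 + ∑ i, (1 / c i + 2 * (1 + BB d (c i) (θ i)) / c i) with hK
  have hKt : ∀ i, 0 ≤ 1 / c i + 2 * (1 + BB d (c i) (θ i)) / c i := fun i => by
    have := hBn i
    have := hc i
    positivity
  have hK1 : 1 ≤ K := by
    have := Finset.sum_nonneg fun i (_ : i ∈ univ) => hKt i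
    linarith
  have hKi : ∀ i, 1 / c i + 2 * (1 + BB d (c i) (θ i)) / c i ≤ K := fun i => by
    have := Finset.single_le_sum (fun j _ => hKt j) (mem_univ i)
    linarith
  have hKa : ∀ i, 1 / c i ≤ K := fun i => by
    have h1 := hKi i
    have h2 : 0 ≤ 2 * (1 + BB d (c i) (θ i)) / c i := by
      have := hBn i
      have := hc i
      positivity
    linarith
  have hKb : ∀ i, 2 * (1 + BB d (c i) (θ i)) / c i ≤ K := fun i => by
    have h1 := hKi i
    have h2 : 0 ≤ 1 / c i := by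
      have := hc i
      positivity
    linarith
  set M1 : ℝ := ∑ i, MM d (θ i) + b with hM1
  have hM10 : 0 ≤ M1 := add_nonneg (Finset.sum_nonneg fun i _ => MM_nonneg d (θ i))
    (Nat.cast_nonneg b)
  set M : ℝ := s * (M1 * (K + 1)) with hM
  have hM0 : 0 ≤ M := by positivity
  have hyy : ∀ y : ℝ, 1 ≤ y → 1 ≤ y * y ^ (-κ) := by
    intro y hy
    have h1 : y * y ^ (-κ) = y ^ (1 + -κ) := by
      rw [Real.rpow_add (by linarith), Real.rpow_one]
    rw [h1]
    exact Real.one_le_rpow hy (by linarith)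
  have cmp : ∀ y : ℝ, 1 ≤ y → ∀ x : Fin s → ℤ, (∀ i, |(x i : ℝ)| ^ (d + 1) ≤ K * y) →
      |F x - G x| ≤ M * (y * y ^ (-κ)) := by
    intro y hy x hx
    refine (diff s d b c θ x).trans ?_
    have h1 : ∀ i ∈ (univ : Finset (Fin s)), (∑ i, MM d (θ i) + b) * (|(x i : ℝ)| ^ d + 1) ≤
        M1 * (K + 1) * (y * y ^ (-κ)) := by
      intro i _
      have h2 := pow_bd (abs_nonneg (x i : ℝ)) hK1 hy (hx i)
      have h3 := hyy y hy
      rw [mul_assoc]
      refine mul_le_mul_of_nonneg_left ?_ hM10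
      nlinarith
    refine (Finset.sum_le_sum h1).trans (le_of_eq ?_)
    rw [Finset.sum_const, Finset.card_univ, Fintype.card_fin, nsmul_eq_mul, hM]
    ring
  have hFG : ∀ y : ℝ, 1 ≤ y → {x | F x < y} ⊆ {x | G x < y * (1 + M * y ^ (-κ))} := by
    intro y hy x hx
    have hx' : F x < y := hx
    have h1 : ∀ i, |(x i : ℝ)| ^ (d + 1) ≤ K * y := by
      intro i
      have h2 : pk d (c i) (θ i) (x i) + b ≤ F x :=
        Finset.single_le_sum (f := fun i => pk d (c i) (θ i) (x i) + (b : ℝ))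
          (fun j _ => hpos j (x j)) (mem_univ i)
      have h3 := one d (hc i) (θ i) (x i)
      have h4 : c i / 2 * |(x i : ℝ)| ^ (d + 1) ≤ (1 + BB d (c i) (θ i)) * y := by
        have h5 : (0 : ℝ) ≤ b := Nat.cast_nonneg b
        have h6 := hBn i
        nlinarith
      have h7 : |(x i : ℝ)| ^ (d + 1) ≤ 2 * (1 + BB d (c i) (θ i)) / c i * y := by
        rw [div_mul_eq_mul_div, le_div_iff₀ (hc i)]
        nlinarith
      exact h7.trans (mul_le_mul_of_nonneg_right (hKb i) (by linarith))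
    have h2 := (abs_le.1 (cmp y hy x h1)).1
    show G x < y * (1 + M * y ^ (-κ))
    have e2 : y * (1 + M * y ^ (-κ)) = y + M * (y * y ^ (-κ)) := by ring
    rw [e2]
    linarith
  have hGF : ∀ y : ℝ, 1 ≤ y → {x | G x < y * (1 - M * y ^ (-κ))} ⊆ {x | F x < y} := by
    intro y hy x hx
    have e2 : y * (1 - M * y ^ (-κ)) = y - M * (y * y ^ (-κ)) := by ring
    have hx' : G x < y - M * (y * y ^ (-κ)) := by rw [← e2]; exact hx
    have h0 : 0 ≤ M * (y * y ^ (-κ)) := mul_nonneg hM0 (by linarith [hyy y hy])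
    have h1 : ∀ i, |(x i : ℝ)| ^ (d + 1) ≤ K * y := by
      intro i
      have h2 : c i * |(x i : ℝ)| ^ (d + 1) ≤ G x :=
        Finset.single_le_sum (f := fun i => c i * |(x i : ℝ)| ^ (d + 1))
          (fun j _ => mul_nonneg (hc j).le (by positivity)) (mem_univ i)
      have h7 : |(x i : ℝ)| ^ (d + 1) ≤ 1 / c i * y := by
        rw [div_mul_eq_mul_div, le_div_iff₀ (hc i)]
        nlinarith
      exact h7.trans (mul_le_mul_of_nonneg_right (hKa i) (by linarith))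
    have h2 := (abs_le.1 (cmp y hy x h1)).2
    show F x < y
    linarith
  refine ⟨C0 * (1 + M) ^ e' + C0 + V * e * Real.exp (e * M) * M + 2 * V * e * M +
    V * (2 + 2 * M) + 1, ?_, ?_⟩
  · have h1 : 0 ≤ (1 + M) ^ e' := Real.rpow_nonneg (by linarith) _
    have h2 := Real.exp_pos (e * M)
    positivity
  intro y hy
  have hy0 : 0 < y := by linarith
  have hCF : CF (fun i x => pk d (c i) (θ i) x + b) y = {x | F x < y}.ncard := rfl
  rw [hCF]
  set u : ℝ := M * y ^ (-κ) with hu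
  have hyk0 : 0 < y ^ (-κ) := Real.rpow_pos_of_pos hy0 _
  have hyk1 : y ^ (-κ) ≤ 1 := Real.rpow_le_one_of_one_le_of_nonpos hy (by linarith)
  have hu0 : 0 ≤ u := mul_nonneg hM0 hyk0.le
  have huM : u ≤ M := by
    calc u ≤ M * 1 := mul_le_mul_of_nonneg_left hyk1 hM0
      _ = M := mul_one M
  have hye : y ^ e' = y ^ e * y ^ (-κ) := by rw [hee, Real.rpow_add hy0]
  have hyep : 0 < y ^ e := Real.rpow_pos_of_pos hy0 _
  have hye' : 0 < y ^ e' := Real.rpow_pos_of_pos hy0 _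
  have hfin1 : {x | G x < y * (1 + u)}.Finite := finG s d c hc _
  have hfin2 : {x | F x < y}.Finite := hfin1.subset (hFG y hy)
  have hexp := Real.exp_pos (e * M)
  have h1M : 0 ≤ (1 + M) ^ e' := Real.rpow_nonneg (by linarith) _
  rw [abs_le]
  constructor
  · -- lower bound
    by_cases hcase : u ≤ 1 / 2 ∧ 2 ≤ y
    · obtain ⟨hu2, hy2⟩ := hcase
      have hz : 1 ≤ y * (1 - u) := by nlinarith
      have h1 : (({x | G x < y * (1 - u)}.ncard : ℕ) : ℝ) ≤ (({x | F x < y}.ncard : ℕ) : ℝ) := by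
        exact_mod_cast Set.ncard_le_ncard (hGF y hy) hfin2
      have h2 := (abs_le.1 (hG1 _ hz)).1
      have h3 : (y * (1 - u)) ^ e = y ^ e * (1 - u) ^ e := Real.mul_rpow hy0.le (by linarith)
      have h4 : (y * (1 - u)) ^ e' ≤ y ^ e' :=
        Real.rpow_le_rpow (by linarith) (by nlinarith) he'0
      have h5 := low_pow he0 hu0 hu2
      have h6 : V * y ^ e * (1 - 2 * e * u) ≤ V * y ^ e * (1 - u) ^ e :=
        mul_le_mul_of_nonneg_left h5 (by positivity)
      have h7 : V * y ^ e * (2 * e * u) = 2 * V * e * M * y ^ e' := by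
        rw [hye, hu]
        ring
      have h8 : C0 * (y * (1 - u)) ^ e' ≤ C0 * y ^ e' := mul_le_mul_of_nonneg_left h4 hC0.le
      rw [h3] at h2
      have h9 : 0 ≤ (C0 * (1 + M) ^ e' + V * e * Real.exp (e * M) * M + V * (2 + 2 * M) + 1) *
          y ^ e' := by positivity
      nlinarith
    · have h1 : y ^ κ ≤ 2 + 2 * M := by
        by_cases hy2 : 2 ≤ y
        · have hu2 : 1 / 2 < u := by
            by_contra hc'
            exact hcase ⟨not_lt.1 hc', hy2⟩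
          have h2 : y ^ κ * y ^ (-κ) = 1 := by
            rw [← Real.rpow_add hy0, add_neg_cancel, Real.rpow_zero]
          have h3 : 0 < y ^ κ := Real.rpow_pos_of_pos hy0 _
          have h4 : y ^ κ * (1 / 2) ≤ y ^ κ * u := mul_le_mul_of_nonneg_left hu2.le h3.le
          have h5 : y ^ κ * u = M := by
            rw [hu]
            calc y ^ κ * (M * y ^ (-κ)) = M * (y ^ κ * y ^ (-κ)) := by ring
              _ = M := by rw [h2, mul_one]
          linarith
        · have h2 : y ^ κ ≤ y ^ (1 : ℝ) := Real.rpow_le_rpow_of_exponent_le hy hκ1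
          rw [Real.rpow_one] at h2
          linarith
      have h2 : y ^ e = y ^ e' * y ^ κ := by
        rw [← Real.rpow_add hy0, hee]
        congr 1
        ring
      have h3 : V * y ^ e ≤ V * (2 + 2 * M) * y ^ e' := by
        rw [h2]
        have := mul_le_mul_of_nonneg_left h1 (mul_nonneg hV0 hye'.le)
        nlinarith
      have h4 : (0 : ℝ) ≤ (({x | F x < y}.ncard : ℕ) : ℝ) := Nat.cast_nonneg _
      have h9 : 0 ≤ (C0 * (1 + M) ^ e' + C0 + V * e * Real.exp (e * M) * M + 2 * V * e * M + 1) *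
          y ^ e' := by positivity
      nlinarith
  · -- upper bound
    have hz : 1 ≤ y * (1 + u) := by nlinarith
    have h1 : (({x | F x < y}.ncard : ℕ) : ℝ) ≤ (({x | G x < y * (1 + u)}.ncard : ℕ) : ℝ) := by
      exact_mod_cast Set.ncard_le_ncard (hFG y hy) hfin1
    have h2 := (abs_le.1 (hG1 _ hz)).2
    have h3 : (y * (1 + u)) ^ e = y ^ e * (1 + u) ^ e := Real.mul_rpow hy0.le (by linarith)
    have h4 : (y * (1 + u)) ^ e' ≤ y ^ e' * (1 + M) ^ e' := by
      rw [Real.mul_rpow hy0.le (by linarith)]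
      exact mul_le_mul_of_nonneg_left (Real.rpow_le_rpow (by linarith) (by linarith) he'0) hye'.le
    have h5 := up_pow he0 hu0 huM
    have h6 : V * y ^ e * (1 + u) ^ e ≤ V * y ^ e * (1 + e * u * Real.exp (e * M)) :=
      mul_le_mul_of_nonneg_left h5 (by positivity)
    have h7 : V * y ^ e * (e * u * Real.exp (e * M)) = V * e * Real.exp (e * M) * M * y ^ e' := by
      rw [hye, hu]
      ring
    have h8 : C0 * (y * (1 + u)) ^ e' ≤ C0 * (y ^ e' * (1 + M) ^ e') :=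
      mul_le_mul_of_nonneg_left h4 hC0.le
    rw [h3] at h2
    have h9 : 0 ≤ (C0 + 2 * V * e * M + V * (2 + 2 * M) + 1) * y ^ e' := by positivity
    nlinarith

end Pool.Agent.N342.AK_Low
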