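import Pool.Agent.N343.AS.Stm

/-! # Project AS, part DEC: decomposition of the subset sums of a level -/

set_option autoImplicit false

namespace Pool.Agent.N342.AS_DEC

open Finset Pool.Agent.N343.AS

open Classical in
/-- indicator of the copy `k` at position `i` -/
noncomputable def chi (N : ℕ) (S : Finset (T N)) (i k : ℕ) : ℕ :=
  if h : i < N + 1 ∧ k < 2 ^ (i + 4) - 1 then
    (if (Sum.inl ⟨⟨i, h.1⟩, ⟨k, h.2⟩⟩ : T N) ∈ S then 1 else 0) else 0

open Classical in
/-- indicator of the low terms -/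
noncomputable def eta (N : ℕ) (S : Finset (T N)) (m : ℕ) : ℕ :=
  if h : m < L N then (if (Sum.inr ⟨m, h⟩ : T N) ∈ S then 1 else 0) else 0

lemma chi_le (N : ℕ) (S : Finset (T N)) (i k : ℕ) : chi N S i k ≤ 1 := by
  unfold chi
  split_ifs <;> omega

lemma eta_le (N : ℕ) (S : Finset (T N)) (m : ℕ) : eta N S m ≤ 1 := by
  unfold eta
  split_ifs <;> omega

/-- the sum in terms of the indicators -/
lemma sum_eq (N : ℕ) (S : Finset (T N)) : ∑ t ∈ S, cT N t =
    ∑ i ∈ range (N + 1), ∑ k ∈ range (2 ^ (i + 4) - 1),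
      (chi N S i k : ℝ) * (((U N i : ℝ) + cls N i k) * Z (N + 1)) +
    ∑ m ∈ range (L N), (eta N S m : ℝ) * (2 ^ (N + m) * Z (N + 1)) := by
  classical
  have h1 : ∑ t ∈ S, cT N t = ∑ t : T N, if t ∈ S then cT N t else 0 := by
    rw [Finset.sum_ite_mem, univ_inter]
  rw [h1, Fintype.sum_sum_type, Fintype.sum_sigma]
  congr 1
  · rw [Finset.sum_range]
    refine Finset.sum_congr rfl fun i _ => ?_
    rw [Finset.sum_range]
    refine Finset.sum_congr rfl fun k _ => ?_
    have h : (i : ℕ) < N + 1 ∧ (k : ℕ) < 2 ^ ((i : ℕ) + 4) - 1 := ⟨i.2, k.2⟩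
    unfold chi
    rw [dif_pos h]
    by_cases hm : (Sum.inl ⟨i, k⟩ : T N) ∈ S
    · rw [if_pos hm, if_pos hm]
      simp [cT]
    · rw [if_neg hm, if_neg hm]
      simp
  · rw [Finset.sum_range]
    refine Finset.sum_congr rfl fun m _ => ?_
    unfold eta
    rw [dif_pos m.2]
    by_cases hm : (Sum.inr m : T N) ∈ S
    · rw [if_pos hm, if_pos hm]
      simp [cT]
    · rw [if_neg hm, if_neg hm]
      simp

/-- the integer part of the class -/
def refp (N i k : ℕ) : ℤ :=
  (if k % 2 = 0 then 1 else -1) *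
    (if k / 2 = 0 then 0 else if k / 2 < 2 ^ i then ((k / 2 : ℕ) : ℤ) * 2 ^ (N - i) else 0)

/-- the coefficient of the shift -/
def shp (k : ℕ) : ℤ := if k / 2 = 0 then (if k % 2 = 0 then 1 else -1) else 0

lemma cls_eq (N i k : ℕ) : cls N i k = (refp N i k : ℝ) + (shp k : ℝ) * sh i := by
  unfold cls refp shp
  generalize k / 2 = r
  split_ifs <;> push_cast <;> ring

/-- the number of chosen copies -/
noncomputable def nu (N : ℕ) (S : Finset (T N)) (i : ℕ) : ℕ :=
  ∑ k ∈ range (2 ^ (i + 4) - 1), chi N S i k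

/-- the integer part at position `i` -/
noncomputable def R (N : ℕ) (S : Finset (T N)) (i : ℕ) : ℤ :=
  ∑ k ∈ range (2 ^ (i + 4) - 1), (chi N S i k : ℤ) * refp N i k

/-- the shift at position `i` -/
noncomputable def ee (N : ℕ) (S : Finset (T N)) (i : ℕ) : ℤ :=
  ∑ k ∈ range (2 ^ (i + 4) - 1), (chi N S i k : ℤ) * shp k

lemma nu_le (N : ℕ) (S : Finset (T N)) (i : ℕ) : nu N S i ≤ 2 ^ (i + 4) - 1 := by
  unfold nu
  calc ∑ k ∈ range (2 ^ (i + 4) - 1), chi N S i k ≤ ∑ k ∈ range (2 ^ (i + 4) - 1), 1 :=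
        Finset.sum_le_sum fun k _ => chi_le N S i k
    _ = 2 ^ (i + 4) - 1 := by simp

lemma sum_two (f : ℕ → ℤ) (n : ℕ) :
    ∑ k ∈ range (2 * n), f k = ∑ r ∈ range n, (f (2 * r) + f (2 * r + 1)) := by
  induction n with
  | zero => simp
  | succ n ih =>
    rw [show 2 * (n + 1) = 2 * n + 1 + 1 by ring, Finset.sum_range_succ, Finset.sum_range_succ, ih,
      Finset.sum_range_succ]
    ring

lemma pow_ge (i : ℕ) : 2 * 2 ^ i ≤ 2 ^ (i + 4) - 1 := by
  have h1 : 0 < 2 ^ i := by positivity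
  have h2 : 2 ^ (i + 4) = 16 * 2 ^ i := by rw [pow_add]; ring
  omega

lemma R_eq (N : ℕ) (S : Finset (T N)) (i : ℕ) : R N S i =
    ∑ r ∈ range (2 ^ i),
      ((chi N S i (2 * r) : ℤ) - (chi N S i (2 * r + 1) : ℤ)) * ((r : ℤ) * 2 ^ (N - i)) := by
  unfold R
  have h1 : ∑ k ∈ range (2 ^ (i + 4) - 1), (chi N S i k : ℤ) * refp N i k =
      ∑ k ∈ range (2 * 2 ^ i), (chi N S i k : ℤ) * refp N i k := by
    symm
    refine Finset.sum_subset (fun k hk => ?_) fun k _ hk => ?_
    · rw [mem_range] at hk ⊢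
      exact hk.trans_le (pow_ge i)
    · rw [mem_range, not_lt] at hk
      have h2 : ¬ k / 2 < 2 ^ i := by omega
      unfold refp
      rw [if_neg h2]
      split_ifs <;> simp
  rw [h1, sum_two]
  refine Finset.sum_congr rfl fun r hr => ?_
  rw [mem_range] at hr
  have e1 : refp N i (2 * r) = (r : ℤ) * 2 ^ (N - i) := by
    unfold refp
    have h2 : 2 * r / 2 = r := by omega
    have h3 : 2 * r % 2 = 0 := by omega
    rw [h2, h3, if_pos rfl, if_pos hr, one_mul]
    split_ifs with h4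
    · rw [h4]; simp
    · rfl
  have e2 : refp N i (2 * r + 1) = -((r : ℤ) * 2 ^ (N - i)) := by
    unfold refp
    have h2 : (2 * r + 1) / 2 = r := by omega
    have h3 : ¬ (2 * r + 1) % 2 = 0 := by omega
    rw [h2, if_neg h3, if_pos hr]
    split_ifs with h4
    · rw [h4]; simp
    · ring
  rw [e1, e2]
  ring

lemma ee_eq (N : ℕ) (S : Finset (T N)) (i : ℕ) :
    ee N S i = (chi N S i 0 : ℤ) - (chi N S i 1 : ℤ) := by
  unfold ee
  have h1 : ∑ k ∈ range (2 ^ (i + 4) - 1), (chi N S i k : ℤ) * shp k =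
      ∑ k ∈ range 2, (chi N S i k : ℤ) * shp k := by
    symm
    refine Finset.sum_subset (fun k hk => ?_) fun k _ hk => ?_
    · rw [mem_range] at hk ⊢
      have := pow_ge i
      have h2 : 0 < 2 ^ i := by positivity
      omega
    · rw [mem_range, not_lt] at hk
      have h2 : ¬ k / 2 = 0 := by omega
      unfold shp
      rw [if_neg h2, mul_zero]
  rw [h1, Finset.sum_range_succ, Finset.sum_range_succ, Finset.sum_range_zero]
  unfold shp
  norm_num
  ring

lemma ee_abs (N : ℕ) (S : Finset (T N)) (i : ℕ) : |ee N S i| ≤ 1 := by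
  rw [ee_eq, abs_le]
  have h1 := chi_le N S i 0
  have h2 := chi_le N S i 1
  omega

lemma R_abs (N : ℕ) (S : Finset (T N)) {i : ℕ} (hi : i ≤ N) :
    |R N S i| * 2 ≤ 2 ^ N * (2 ^ i - 1) := by
  have h1 : |R N S i| ≤ ∑ r ∈ range (2 ^ i), ((r : ℤ) * 2 ^ (N - i)) := by
    rw [R_eq]
    refine (Finset.abs_sum_le_sum_abs _ _).trans (Finset.sum_le_sum fun r _ => ?_)
    rw [abs_mul, abs_of_nonneg (by positivity : (0 : ℤ) ≤ (r : ℤ) * 2 ^ (N - i))]
    have h2 := chi_le N S i (2 * r)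
    have h3 := chi_le N S i (2 * r + 1)
    have h4 : |(chi N S i (2 * r) : ℤ) - (chi N S i (2 * r + 1) : ℤ)| ≤ 1 := by
      rw [abs_le]
      omega
    calc _ ≤ 1 * ((r : ℤ) * 2 ^ (N - i)) :=
          mul_le_mul_of_nonneg_right h4 (by positivity)
      _ = _ := one_mul _
  have h2 : (∑ r ∈ range (2 ^ i), (r : ℤ)) * 2 = 2 ^ i * (2 ^ i - 1) := by
    have h3 := Finset.sum_range_id_mul_two (2 ^ i)
    have h4 : 1 ≤ 2 ^ i := Nat.one_le_two_pow
    have h5 : ((∑ r ∈ range (2 ^ i), r : ℕ) : ℤ) * 2 = ((2 ^ i * (2 ^ i - 1) : ℕ) : ℤ) := by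
      rw [← h3]
      push_cast
      ring
    rw [Nat.cast_mul, Nat.cast_sub h4] at h5
    push_cast at h5
    exact h5
  have h3 : (2 : ℤ) ^ (N - i) * 2 ^ i = 2 ^ N := by
    rw [← pow_add]
    congr 1
    omega
  calc |R N S i| * 2 ≤ (∑ r ∈ range (2 ^ i), ((r : ℤ) * 2 ^ (N - i))) * 2 :=
        mul_le_mul_of_nonneg_right h1 (by norm_num)
    _ = 2 ^ (N - i) * ((∑ r ∈ range (2 ^ i), (r : ℤ)) * 2) := by
        rw [← Finset.sum_mul]
        ring
    _ = 2 ^ (N - i) * 2 ^ i * (2 ^ i - 1) := by rw [h2]; ring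
    _ = 2 ^ N * (2 ^ i - 1) := by rw [h3]

lemma ref_abs (N : ℕ) (S : Finset (T N)) : |∑ i ∈ range (N + 1), R N S i| ≤ 4 ^ N := by
  have h1 : |∑ i ∈ range (N + 1), R N S i| * 2 ≤ ∑ i ∈ range (N + 1), 2 ^ N * (2 ^ i - 1) := by
    calc |∑ i ∈ range (N + 1), R N S i| * 2 ≤ (∑ i ∈ range (N + 1), |R N S i|) * 2 :=
          mul_le_mul_of_nonneg_right (Finset.abs_sum_le_sum_abs _ _) (by norm_num)
      _ = ∑ i ∈ range (N + 1), |R N S i| * 2 := Finset.sum_mul _ _ _
      _ ≤ _ := Finset.sum_le_sum fun i hi => R_abs N S (Nat.lt_succ_iff.1 (mem_range.1 hi))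
  have h2 : ∀ n : ℕ, ∑ i ∈ range n, ((2 : ℤ) ^ i - 1) ≤ 2 ^ n - 1 := by
    intro n
    induction n with
    | zero => simp
    | succ n ih =>
      rw [Finset.sum_range_succ, pow_succ]
      linarith
  rw [← Finset.mul_sum] at h1
  have h3 := h2 (N + 1)
  have h4 : (0 : ℤ) < 2 ^ N := by positivity
  have h5 : (4 : ℤ) ^ N = 2 ^ N * 2 ^ N := by
    rw [← mul_pow]
    norm_num
  rw [pow_succ] at h3
  nlinarith

lemma sh_le (i : ℕ) : sh i ≤ 1 / 4 * (1 / 16) ^ i := by
  induction i with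
  | zero =>
    unfold sh Q
    norm_num
  | succ i ih =>
    have h1 : sh (i + 1) = sh i * (2 / 2 ^ (i + 5)) := by
      unfold sh
      rw [show Q (i + 1) = Q i + (i + 5) from rfl, pow_add 2 (Q i) (i + 5)]
      have h2 : (2 : ℝ) ^ (Q i) ≠ 0 := by positivity
      have h3 : (2 : ℝ) ^ (i + 5) ≠ 0 := by positivity
      field_simp
      ring
    have h4 : (2 : ℝ) / 2 ^ (i + 5) ≤ 1 / 16 := by
      rw [div_le_div_iff₀ (by positivity) (by norm_num), pow_add]
      have : (1 : ℝ) ≤ 2 ^ i := one_le_pow₀ (by norm_num)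
      norm_num
      linarith
    have h5 : 0 ≤ sh i := by unfold sh; positivity
    rw [h1, pow_succ]
    calc sh i * (2 / 2 ^ (i + 5)) ≤ (1 / 4 * (1 / 16) ^ i) * (1 / 16) :=
          mul_le_mul ih h4 (by positivity) (by positivity)
      _ = _ := by ring

lemma sh_sum (n : ℕ) : ∑ i ∈ range n, sh i ≤ 4 / 15 := by
  have h1 : ∀ n : ℕ, ∑ i ∈ range n, sh i ≤ 4 / 15 * (1 - (1 / 16) ^ n) := by
    intro n
    induction n with
    | zero => simp
    | succ n ih =>
      rw [Finset.sum_range_succ, pow_succ]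
      have := sh_le n
      linarith
  have h2 := h1 n
  have h3 : (0 : ℝ) ≤ (1 / 16) ^ n := by positivity
  linarith

lemma Q_mono {l i : ℕ} (h : l ≤ i) : Q l ≤ Q i := by
  induction i, h using Nat.le_induction with
  | base => exact le_rfl
  | succ n _ ih => exact ih.trans (by show Q n ≤ Q n + (n + 5); omega)

lemma chi_zero {N : ℕ} {S : Finset (T N)} {l : ℕ} (h : nu N S l = 0) :
    ∀ k ∈ range (2 ^ (l + 4) - 1), chi N S l k = 0 := by
  unfold nu at h
  exact Finset.sum_eq_zero_iff.1 h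

lemma refp_dvd {N i l k : ℕ} (hl : l ≤ i) : (2 : ℤ) ^ (N - i) ∣ refp N l k := by
  unfold refp
  refine Dvd.dvd.mul_left ?_ _
  split_ifs
  · exact dvd_zero _
  · exact Dvd.dvd.mul_left (pow_dvd_pow 2 (by omega)) _
  · exact dvd_zero _

theorem main : S_DEC := by
  intro N S
  refine ⟨nu N S, ∑ m ∈ range (L N), eta N S m * 2 ^ m, ∑ i ∈ range (N + 1), R N S i,
    ∑ i ∈ range (N + 1), (ee N S i : ℝ) * sh i, nu_le N S, ?_, ref_abs N S, ?_, ?_, ?_⟩
  · have h1 : ∑ m ∈ range (L N), eta N S m * 2 ^ m ≤ ∑ m ∈ range (L N), 2 ^ m :=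
      Finset.sum_le_sum fun m _ => by
        have := eta_le N S m
        calc eta N S m * 2 ^ m ≤ 1 * 2 ^ m := Nat.mul_le_mul_right _ this
          _ = 2 ^ m := one_mul _
    have h2 := Nat.geomSum_lt (m := 2) (n := L N) (s := range (L N)) le_rfl
      (fun k hk => mem_range.1 hk)
    exact h1.trans_lt h2
  · refine (Finset.abs_sum_le_sum_abs _ _).trans ?_
    have h1 : ∑ i ∈ range (N + 1), |(ee N S i : ℝ) * sh i| ≤ ∑ i ∈ range (N + 1), sh i := by
      refine Finset.sum_le_sum fun i _ => ?_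
      have h5 : 0 ≤ sh i := by unfold sh; positivity
      rw [abs_mul, abs_of_nonneg h5]
      have h6 : |(ee N S i : ℝ)| ≤ 1 := by exact_mod_cast ee_abs N S i
      calc _ ≤ 1 * sh i := mul_le_mul_of_nonneg_right h6 h5
        _ = sh i := one_mul _
    have h2 := sh_sum (N + 1)
    linarith
  · rw [sum_eq]
    have e1 : ∀ i, ∑ k ∈ range (2 ^ (i + 4) - 1),
        (chi N S i k : ℝ) * (((U N i : ℝ) + cls N i k) * Z (N + 1)) =
        ((nu N S i : ℝ) * U N i + (R N S i : ℝ) + (ee N S i : ℝ) * sh i) * Z (N + 1) := by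
      intro i
      unfold nu R ee
      push_cast
      rw [Finset.sum_mul, Finset.sum_mul, ← Finset.sum_add_distrib, ← Finset.sum_add_distrib,
        Finset.sum_mul]
      refine Finset.sum_congr rfl fun k _ => ?_
      rw [cls_eq]
      ring
    have e2 : ∑ m ∈ range (L N), (eta N S m : ℝ) * (2 ^ (N + m) * Z (N + 1)) =
        ((∑ m ∈ range (L N), eta N S m * 2 ^ m : ℕ) : ℝ) * 2 ^ N * Z (N + 1) := by
      push_cast
      rw [Finset.sum_mul, Finset.sum_mul]
      refine Finset.sum_congr rfl fun m _ => ?_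
      rw [pow_add]
      ring
    rw [Finset.sum_congr rfl fun i _ => e1 i, e2, ← Finset.sum_mul, Finset.sum_add_distrib,
      Finset.sum_add_distrib]
    push_cast
    ring
  · intro i hi h0
    have hz : ∀ l, i < l → l ≤ N → R N S l = 0 ∧ ee N S l = 0 := by
      intro l h1 h2
      have h3 := chi_zero (h0 l h1 h2)
      refine ⟨?_, ?_⟩
      · unfold R
        exact Finset.sum_eq_zero fun k hk => by rw [h3 k hk]; simp
      · unfold ee
        exact Finset.sum_eq_zero fun k hk => by rw [h3 k hk]; simp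
    refine ⟨Finset.dvd_sum fun l hl => ?_, ?_⟩
    · have hl' : l ≤ N := Nat.lt_succ_iff.1 (mem_range.1 hl)
      rcases le_or_gt l i with h1 | h1
      · unfold R
        exact Finset.dvd_sum fun k _ => Dvd.dvd.mul_left (refp_dvd h1) _
      · rw [(hz l h1 hl').1]
        exact dvd_zero _
    · refine ⟨∑ l ∈ range (N + 1), ee N S l * (2 ^ (l + 2) * 2 ^ (Q i - Q l)), ?_⟩
      push_cast
      rw [Finset.sum_div]
      refine Finset.sum_congr rfl fun l hl => ?_
      have hl' : l ≤ N := Nat.lt_succ_iff.1 (mem_range.1 hl)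
      rcases le_or_gt l i with h1 | h1
      · have h2 : (2 : ℝ) ^ (Q i) = 2 ^ (Q l) * 2 ^ (Q i - Q l) := by
          rw [← pow_add]
          congr 1
          have := Q_mono h1
          omega
        unfold sh
        rw [h2]
        have h3 : (2 : ℝ) ^ (Q l) ≠ 0 := by positivity
        have h4 : (2 : ℝ) ^ (Q i - Q l) ≠ 0 := by positivity
        field_simp
      · rw [(hz l h1 hl').2]
        simp

end Pool.Agent.N342.AS_DEC
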