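import Pool.Agent.N81.Cay.Stm

/-!
The weighted cut bound for a chain of subgroups (project CAY of helper81).
-/

set_option autoImplicit false

namespace Pool.Agent.N342.CayB

open Pool.Agent.N81.Cay

universe u

variable {G : Type u} [Group G] [Fintype G]

/-- a proper larger subgroup has at least twice the order -/
theorem two_mul_card {H K : Subgroup G} (hHK : H ≤ K) (hne : K ≠ H) :
    2 * Nat.card H ≤ Nat.card K := by
  obtain ⟨m, hm⟩ := Subgroup.card_dvd_of_le hHK
  have hH : 0 < Nat.card H := Nat.card_pos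
  have hK : 0 < Nat.card K := Nat.card_pos
  have hm2 : 2 ≤ m := by
    by_contra hcon
    have h01 : m = 0 ∨ m = 1 := by omega
    rcases h01 with rfl | rfl
    · omega
    · apply hne
      symm
      apply Subgroup.eq_of_le_of_card_ge hHK
      rw [hm, mul_one]
  rw [hm]
  nlinarith

open Classical in
/-- the subgroup case, by induction on the chain -/
theorem chain (C : Set G) : ∀ (N : ℕ) (H : Subgroup G), Nat.card G ≤ Nat.card H + N →
    Subgroup.closure ((H : Set G) ∪ C) = ⊤ → H ≠ ⊤ →
    ∃ (k : ℕ) (c : Fin k → G) (w : Fin k → ℝ), (∀ i, c i ∈ C) ∧ (∀ i, c i ∉ H) ∧ (∀ i, 0 ≤ w i) ∧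
      ∑ i, w i = 1 ∧ ∀ K : Subgroup G, H ≤ K → K ≠ ⊤ →
        (Nat.card H : ℝ) ≤ ∑ i, w i * (if c i ∈ K then 0 else (Nat.card K : ℝ)) := by
  intro N
  induction N with
  | zero =>
    intro H hcard _ hne
    exfalso
    apply hne
    apply Subgroup.eq_top_of_le_card
    simpa using hcard
  | succ N ih =>
    intro H hcard hcl hne
    obtain ⟨c, hcC, hcH⟩ : ∃ c ∈ C, c ∉ H := by
      by_contra hcon
      push Not at hcon
      apply hne
      rw [← top_le_iff, ← hcl, Subgroup.closure_le]
      exact Set.union_subset (fun x hx => hx) hcon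
    set H' : Subgroup G := Subgroup.closure ((H : Set G) ∪ {c}) with hH'
    have hHH' : H ≤ H' := fun x hx => Subgroup.subset_closure (Or.inl hx)
    have hcH' : c ∈ H' := Subgroup.subset_closure (Or.inr rfl)
    have hne' : H' ≠ H := fun h => hcH (h ▸ hcH')
    have h2 := two_mul_card hHH' hne'
    have hle : ∀ K : Subgroup G, H ≤ K → c ∈ K → H' ≤ K := by
      intro K hK hc
      rw [hH', Subgroup.closure_le]
      exact Set.union_subset hK (Set.singleton_subset_iff.2 hc)
    have hHpos : 0 < Nat.card H := Nat.card_pos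
    by_cases htop : H' = ⊤
    · refine ⟨1, fun _ => c, fun _ => 1, fun _ => hcC, fun _ => hcH, fun _ => zero_le_one, by simp,
        fun K hK hKt => ?_⟩
      have hcK : c ∉ K := fun hc => hKt (top_le_iff.1 (htop ▸ hle K hK hc))
      simp only [hcK, if_false, one_mul, Finset.univ_unique, Finset.sum_const, Finset.card_singleton,
        one_smul]
      exact_mod_cast Nat.le_of_dvd Nat.card_pos (Subgroup.card_dvd_of_le hK)
    · obtain ⟨k, c', w', hc'C, hc'H, hw', hsum, hK'⟩ := ih H' (by omega) (by
        rw [← top_le_iff, ← hcl]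
        apply Subgroup.closure_mono
        exact Set.union_subset_union_left _ hHH') htop
      refine ⟨k + 1, Fin.cons c c', Fin.cons (1 / 2) (fun i => w' i / 2), ?_, ?_, ?_, ?_, ?_⟩
      · intro i
        refine Fin.cases ?_ (fun j => ?_) i
        · simpa using hcC
        · simpa using hc'C j
      · intro i
        refine Fin.cases ?_ (fun j => ?_) i
        · simpa using hcH
        · simpa using fun h => hc'H j (hHH' h)
      · intro i
        refine Fin.cases ?_ (fun j => ?_) i
        · simp
        · have := hw' j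
          simp only [Fin.cons_succ]
          positivity
      · rw [Fin.sum_univ_succ]
        simp only [Fin.cons_zero, Fin.cons_succ]
        rw [← Finset.sum_div, hsum]
        norm_num
      · intro K hK hKt
        rw [Fin.sum_univ_succ]
        simp only [Fin.cons_zero, Fin.cons_succ]
        have hnn : 0 ≤ ∑ i, w' i * (if c' i ∈ K then 0 else (Nat.card K : ℝ)) :=
          Finset.sum_nonneg fun i _ => mul_nonneg (hw' i) (by split_ifs <;> positivity)
        have e1 : ∑ i, w' i / 2 * (if c' i ∈ K then 0 else (Nat.card K : ℝ)) =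
            (∑ i, w' i * (if c' i ∈ K then 0 else (Nat.card K : ℝ))) / 2 := by
          rw [Finset.sum_div]
          exact Finset.sum_congr rfl fun i _ => by ring
        rw [e1]
        by_cases hc : c ∈ K
        · rw [if_pos hc, mul_zero, zero_add]
          have h3 := hK' K (hle K hK hc) hKt
          have h4 : (2:ℝ) * Nat.card H ≤ Nat.card H' := by exact_mod_cast h2
          linarith
        · rw [if_neg hc]
          by_cases hKH : K = H
          · subst hKH
            have e2 : ∑ i, w' i * (if c' i ∈ K then 0 else (Nat.card K : ℝ)) = Nat.card K := by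
              have : ∀ i, w' i * (if c' i ∈ K then 0 else (Nat.card K : ℝ)) =
                  w' i * Nat.card K := by
                intro i
                rw [if_neg fun h => hc'H i (hHH' h)]
              simp only [this]
              rw [← Finset.sum_mul, hsum, one_mul]
            rw [e2]
            linarith
          · have h3 : (2:ℝ) * Nat.card H ≤ Nat.card K := by exact_mod_cast two_mul_card hK hKH
            linarith

section cutsec

variable {k : ℕ} (c : Fin k → G) (w : Fin k → ℝ)

open Classical in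
/-- the weighted boundary -/
noncomputable def b (X : Finset G) : ℝ :=
  ∑ i, w i * ((Finset.univ.filter fun x : G => x ∈ X ∧ x * c i ∉ X).card : ℝ)

open Classical in
theorem b_submod (hw : ∀ i, 0 ≤ w i) (X Y : Finset G) :
    b c w (X ∩ Y) + b c w (X ∪ Y) ≤ b c w X + b c w Y := by
  unfold b
  rw [← Finset.sum_add_distrib, ← Finset.sum_add_distrib]
  refine Finset.sum_le_sum fun i _ => ?_
  rw [← mul_add, ← mul_add]
  refine mul_le_mul_of_nonneg_left ?_ (hw i)
  rw [Finset.card_filter, Finset.card_filter, Finset.card_filter, Finset.card_filter]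
  push_cast
  rw [← Finset.sum_add_distrib, ← Finset.sum_add_distrib]
  refine Finset.sum_le_sum fun x _ => ?_
  simp only [Finset.mem_inter, Finset.mem_union]
  by_cases h1 : x ∈ X <;> by_cases h2 : x ∈ Y <;> by_cases h3 : x * c i ∈ X <;>
    by_cases h4 : x * c i ∈ Y <;> simp [h1, h2, h3, h4]

open Classical in
theorem b_compl (X : Finset G) : b c w Xᶜ = b c w X := by
  unfold b
  refine Finset.sum_congr rfl fun i _ => ?_
  congr 2
  have h1 : (Finset.univ.filter fun x : G => x * c i ∈ X).card = X.card := by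
    refine Finset.card_bij (fun x _ => x * c i) (fun x hx => (Finset.mem_filter.1 hx).2)
      (fun x _ y _ h => mul_right_cancel h) (fun y hy => ⟨y * (c i)⁻¹, ?_, ?_⟩)
    · simpa using hy
    · simp
  have h2 : (Finset.univ.filter fun x : G => x ∈ X).card = X.card := by
    congr 1
    ext x
    simp
  have e1 : (Finset.univ.filter fun x : G => x * c i ∈ X) =
      (Finset.univ.filter fun x : G => x ∈ X ∧ x * c i ∈ X) ∪
      (Finset.univ.filter fun x : G => x ∈ Xᶜ ∧ x * c i ∉ Xᶜ) := by
    ext x
    simp only [Finset.mem_filter, Finset.mem_univ, true_and, Finset.mem_union, Finset.mem_compl,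
      not_not]
    tauto
  have e2 : (Finset.univ.filter fun x : G => x ∈ X) =
      (Finset.univ.filter fun x : G => x ∈ X ∧ x * c i ∈ X) ∪
      (Finset.univ.filter fun x : G => x ∈ X ∧ x * c i ∉ X) := by
    ext x
    simp only [Finset.mem_filter, Finset.mem_univ, true_and, Finset.mem_union]
    tauto
  have d1 : Disjoint (Finset.univ.filter fun x : G => x ∈ X ∧ x * c i ∈ X)
      (Finset.univ.filter fun x : G => x ∈ Xᶜ ∧ x * c i ∉ Xᶜ) := by
    rw [Finset.disjoint_left]
    intro x hx hx'
    simp only [Finset.mem_filter, Finset.mem_univ, true_and, Finset.mem_compl] at hx hx'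
    exact hx'.1 hx.1
  have d2 : Disjoint (Finset.univ.filter fun x : G => x ∈ X ∧ x * c i ∈ X)
      (Finset.univ.filter fun x : G => x ∈ X ∧ x * c i ∉ X) := by
    rw [Finset.disjoint_left]
    intro x hx hx'
    simp only [Finset.mem_filter, Finset.mem_univ, true_and] at hx hx'
    exact hx'.2 hx.2
  rw [e1, Finset.card_union_of_disjoint d1] at h1
  rw [e2, Finset.card_union_of_disjoint d2] at h2
  omega

/-- left translates -/
def tr (g : G) (X : Finset G) : Finset G := X.map (Equiv.mulLeft g).toEmbedding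

omit [Fintype G] in
theorem mem_tr (g x : G) (X : Finset G) : x ∈ tr g X ↔ g⁻¹ * x ∈ X := by
  unfold tr
  rw [Finset.mem_map]
  constructor
  · rintro ⟨y, hy, rfl⟩
    simpa using hy
  · intro h
    exact ⟨g⁻¹ * x, h, by simp⟩

omit [Fintype G] in
theorem card_tr (g : G) (X : Finset G) : (tr g X).card = X.card := Finset.card_map _

open Classical in
theorem b_tr (g : G) (X : Finset G) : b c w (tr g X) = b c w X := by
  unfold b
  refine Finset.sum_congr rfl fun i _ => ?_
  congr 2
  refine Finset.card_bij (fun x _ => g⁻¹ * x) (fun x hx => ?_) (fun x _ y _ h => mul_left_cancel h)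
    (fun y hy => ⟨g * y, ?_, by simp⟩)
  · simp only [Finset.mem_filter, Finset.mem_univ, true_and, mem_tr] at hx ⊢
    exact ⟨hx.1, by rw [mul_assoc]; exact hx.2⟩
  · simp only [Finset.mem_filter, Finset.mem_univ, true_and, mem_tr] at hy ⊢
    refine ⟨by simpa using hy.1, ?_⟩
    have : g⁻¹ * (g * y * c i) = y * c i := by group
    rw [this]
    exact hy.2

/-- the sets considered: proper nonempty unions of left cosets -/
def Good (H : Subgroup G) (X : Finset G) : Prop :=
  (∀ x ∈ X, ∀ h ∈ H, x * h ∈ X) ∧ X.Nonempty ∧ X ≠ Finset.univ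

open Classical in
theorem main_cut (H : Subgroup G) (hw : ∀ i, 0 ≤ w i)
    (hK : ∀ K : Subgroup G, H ≤ K → K ≠ ⊤ →
      (Nat.card H : ℝ) ≤ ∑ i, w i * (if c i ∈ K then 0 else (Nat.card K : ℝ)))
    (X : Finset G) (hX : Good H X) : (Nat.card H : ℝ) ≤ b c w X := by
  have hne : (Finset.univ.filter fun X : Finset G => Good H X).Nonempty :=
    ⟨X, Finset.mem_filter.2 ⟨Finset.mem_univ _, hX⟩⟩
  obtain ⟨Z, hZ, hmin⟩ := Finset.exists_min_image _
    (fun X : Finset G => (toLex (b c w X, X.card) : ℝ ×ₗ ℕ)) hne
  have hZG : Good H Z := (Finset.mem_filter.1 hZ).2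
  have hmin' : ∀ Y : Finset G, Good H Y →
      b c w Z < b c w Y ∨ (b c w Z = b c w Y ∧ Z.card ≤ Y.card) := by
    intro Y hY
    have := hmin Y (Finset.mem_filter.2 ⟨Finset.mem_univ _, hY⟩)
    rw [Prod.Lex.toLex_le_toLex] at this
    exact this
  have hle : ∀ Y : Finset G, Good H Y → b c w Z ≤ b c w Y := by
    intro Y hY
    rcases hmin' Y hY with h | h
    · exact h.le
    · exact h.1.le
  refine le_trans ?_ (hle X hX)
  -- translates of good sets are good
  have htr : ∀ (g : G) (Y : Finset G), Good H Y → Good H (tr g Y) := by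
    intro g Y hY
    refine ⟨fun x hx h hh => ?_, ?_, fun hu => ?_⟩
    · rw [mem_tr] at hx ⊢
      rw [← mul_assoc]
      exact hY.1 _ hx h hh
    · obtain ⟨y, hy⟩ := hY.2.1
      exact ⟨g * y, by rw [mem_tr]; simpa using hy⟩
    · apply hY.2.2
      ext x
      simp only [Finset.mem_univ, iff_true]
      have : g * x ∈ tr g Y := by rw [hu]; exact Finset.mem_univ _
      rw [mem_tr] at this
      simpa using this
  -- the complement
  have hcompl : Good H Zᶜ := by
    refine ⟨fun x hx h hh => ?_, ?_, fun hu => ?_⟩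
    · rw [Finset.mem_compl] at hx ⊢
      intro hxh
      apply hx
      have := hZG.1 _ hxh h⁻¹ (H.inv_mem hh)
      simpa using this
    · obtain ⟨y, hy⟩ : ∃ y, y ∉ Z := by
        by_contra hcon
        push Not at hcon
        exact hZG.2.2 (Finset.eq_univ_iff_forall.2 hcon)
      exact ⟨y, Finset.mem_compl.2 hy⟩
    · obtain ⟨y, hy⟩ := hZG.2.1
      have : y ∈ Zᶜ := by rw [hu]; exact Finset.mem_univ _
      exact Finset.mem_compl.1 this hy
  have hhalf : 2 * Z.card ≤ Fintype.card G := by
    have h1 : Z.card ≤ Zᶜ.card := by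
      rcases hmin' _ hcompl with h | h
      · rw [b_compl] at h
        exact absurd h (lt_irrefl _)
      · exact h.2
    have h2 := Finset.card_add_card_compl Z
    omega
  -- translates are equal or disjoint
  have key : ∀ g : G, (∃ x, x ∈ tr g Z ∧ x ∈ Z) → tr g Z = Z := by
    rintro g ⟨x, hx1, hx2⟩
    by_contra hneq
    have hT := htr g Z hZG
    have hcard : (tr g Z).card = Z.card := card_tr g Z
    have hlt : (tr g Z ∩ Z).card < Z.card := by
      refine lt_of_le_of_ne (Finset.card_le_card Finset.inter_subset_right) fun h => ?_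
      have h1 : tr g Z ∩ Z = Z := Finset.eq_of_subset_of_card_le Finset.inter_subset_right h.ge
      have h2 : Z ⊆ tr g Z := by
        intro y hy
        rw [← h1] at hy
        exact (Finset.mem_inter.1 hy).1
      exact hneq (Finset.eq_of_subset_of_card_le h2 hcard.le).symm
    have hI : Good H (tr g Z ∩ Z) := by
      refine ⟨fun y hy h hh => ?_, ⟨x, Finset.mem_inter.2 ⟨hx1, hx2⟩⟩, fun hu => ?_⟩
      · rw [Finset.mem_inter] at hy ⊢
        exact ⟨hT.1 y hy.1 h hh, hZG.1 y hy.2 h hh⟩
      · apply hZG.2.2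
        rw [Finset.eq_univ_iff_forall]
        intro y
        have : y ∈ tr g Z ∩ Z := by rw [hu]; exact Finset.mem_univ _
        exact (Finset.mem_inter.1 this).2
    have hcu := Finset.card_union_add_card_inter (tr g Z) Z
    have hU : Good H (tr g Z ∪ Z) := by
      refine ⟨fun y hy h hh => ?_, ⟨x, Finset.mem_union_left _ hx1⟩, fun hu => ?_⟩
      · rw [Finset.mem_union] at hy ⊢
        rcases hy with hy | hy
        · exact Or.inl (hT.1 y hy h hh)
        · exact Or.inr (hZG.1 y hy h hh)
      · rw [hu, Finset.card_univ] at hcu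
        have : 0 < (tr g Z ∩ Z).card := Finset.card_pos.2 ⟨x, Finset.mem_inter.2 ⟨hx1, hx2⟩⟩
        omega
    have h1 := b_submod c w hw (tr g Z) Z
    rw [b_tr] at h1
    have h2 := hle _ hU
    rcases hmin' _ hI with h3 | h3
    · linarith
    · omega
  -- the subgroup
  obtain ⟨x0, hx0⟩ := hZG.2.1
  set Y := tr x0⁻¹ Z with hY
  have hYG : Good H Y := htr _ _ hZG
  have h1Y : (1 : G) ∈ Y := by rw [hY, mem_tr]; simpa using hx0
  have htrtr : ∀ g h : G, tr g (tr h Z) = tr (g * h) Z := by
    intro g h
    ext x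
    rw [mem_tr, mem_tr, mem_tr, mul_inv_rev, mul_assoc]
  have keyY : ∀ g : G, (∃ x, x ∈ tr g Y ∧ x ∈ Y) → tr g Y = Y := by
    rintro g ⟨x, hx1, hx2⟩
    rw [hY, htrtr] at hx1
    rw [hY] at hx2
    have h1 : tr (x0 * (g * x0⁻¹)) Z = Z := by
      refine key _ ⟨x0 * x, ?_, ?_⟩
      · rw [mem_tr] at hx1 ⊢
        have : (x0 * (g * x0⁻¹))⁻¹ * (x0 * x) = (g * x0⁻¹)⁻¹ * x := by group
        rw [this]
        exact hx1
      · rw [mem_tr] at hx2
        simpa using hx2
    rw [hY, htrtr]
    have h2 : tr x0⁻¹ (tr (x0 * (g * x0⁻¹)) Z) = tr x0⁻¹ Z := by rw [h1]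
    rw [htrtr] at h2
    rw [← h2]
    congr 1
    group
  have hmulY : ∀ g : G, g ∈ Y → tr g Y = Y := by
    intro g hg
    refine keyY g ⟨g, ?_, hg⟩
    rw [mem_tr]
    simpa using h1Y
  let K : Subgroup G :=
    { carrier := {g | g ∈ Y}
      mul_mem' := by
        intro a d ha hd
        show a * d ∈ Y
        rw [← hmulY a ha, mem_tr]
        simpa using hd
      one_mem' := h1Y
      inv_mem' := by
        intro a ha
        show a⁻¹ ∈ Y
        have h1 : (1 : G) ∈ tr a Y := by rw [hmulY a ha]; exact h1Y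
        rw [mem_tr] at h1
        simpa using h1 }
  have hKmem : ∀ x, x ∈ K ↔ x ∈ Y := fun x => Iff.rfl
  have hHK : H ≤ K := by
    intro h hh
    rw [hKmem]
    have := hYG.1 1 h1Y h hh
    simpa using this
  have hKtop : K ≠ ⊤ := by
    intro htop
    apply hYG.2.2
    rw [Finset.eq_univ_iff_forall]
    intro x
    rw [← hKmem, htop]
    exact Subgroup.mem_top x
  have hKcard : Nat.card K = Y.card := by
    rw [Nat.card_eq_fintype_card, Fintype.card_subtype]
    congr 1
    ext x
    simp [hKmem]
  have h1 := hK K hHK hKtop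
  have h2 : b c w Y = ∑ i, w i * (if c i ∈ K then 0 else (Nat.card K : ℝ)) := by
    unfold b
    refine Finset.sum_congr rfl fun i _ => ?_
    congr 1
    have e : ∀ x : G, (x ∈ Y ∧ x * c i ∉ Y) ↔ (x ∈ Y ∧ c i ∉ K) := by
      intro x
      refine and_congr_right fun hx => not_congr ?_
      rw [← hKmem, K.mul_mem_cancel_left ((hKmem x).2 hx)]
    simp only [e]
    split_ifs with hc
    · simp [hc]
    · simp only [hc, not_false_iff, and_true]
      rw [hKcard]
      congr 2
      ext x
      simp
  rw [← h2, hY, b_tr] at h1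
  exact h1

end cutsec

theorem cut : S_cut.{u} := by
  classical
  intro G _ _ H C hcl hne
  obtain ⟨k, c, w, hcC, -, hw, hsum, hK⟩ := chain C (Nat.card G) H (by omega) hcl hne
  refine ⟨k, c, w, hcC, hw, hsum, fun X hX1 hX2 hX3 => ?_⟩
  have hG : Good H X.toFinset := by
    refine ⟨fun x hx h hh => ?_, ?_, fun hu => ?_⟩
    · rw [Set.mem_toFinset] at hx ⊢
      exact hX1 x hx h hh
    · rwa [Set.toFinset_nonempty]
    · exact hX3 (Set.toFinset_eq_univ.1 hu)
  have h1 := main_cut c w H hw hK X.toFinset hG
  refine h1.trans (le_of_eq ?_)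
  unfold b
  refine Finset.sum_congr rfl fun i _ => ?_
  congr 2
  rw [Nat.card_eq_fintype_card, Fintype.card_subtype]
  congr 1
  ext x
  simp

end Pool.Agent.N342.CayB
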