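import Pool.Agent.N988.EA.Stm5

open MeasureTheory Set Filter
open scoped ENNReal Topology

namespace Pool.Agent.N342.EA

open Pool.Agent.N988.EA

theorem Ht_ge (s : ℝ) (hs : 0 ≤ s) : 1 - 3 * s ≤ Ht s := by
  unfold Ht
  have h1 : 1 - 2 * s ≤ Real.exp (-(2 * s)) := by
    have := Real.add_one_le_exp (-(2 * s))
    linarith
  rcases le_or_gt s 1 with h | h
  · have h2 : (1 + s) * (1 - 2 * s) ≤ (1 + s) * Real.exp (-(2 * s)) :=
      mul_le_mul_of_nonneg_left h1 (by linarith)
    nlinarith
  · have h2 : 0 ≤ (1 + s) * Real.exp (-(2 * s)) := by positivity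
    linarith

theorem Ht_ge_exp (s : ℝ) (hs : 0 ≤ s) : Real.exp (-(2 * s)) ≤ Ht s := by
  unfold Ht
  have := Real.exp_pos (-(2 * s))
  nlinarith

/-- a lower bound for the mass of a centred interval -/
theorem low (h : S_AN) (ν : Measure ℝ) [IsProbabilityMeasure ν] (hU : Uni ν) (T t : ℝ) (ht : 0 < t)
    (htT : t ≤ T) (hT : 1 / 2 ≤ ν.real (Icc (-T) T)) : t / (4 * T) ≤ ν.real (Icc (-t) t) := by
  have hT0 : 0 < T := ht.trans_le htT
  obtain ⟨n, hn⟩ : ∃ n : ℕ, n = ⌊T / t⌋₊ + 1 := ⟨_, rfl⟩
  have hn1 : T / t < n := by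
    rw [hn]
    push_cast
    exact Nat.lt_floor_add_one _
  have hn2 : (n : ℝ) ≤ 2 * (T / t) := by
    rw [hn]
    push_cast
    have h1 : (⌊T / t⌋₊ : ℝ) ≤ T / t := Nat.floor_le (by positivity)
    have h2 : 1 ≤ T / t := by rwa [one_le_div ht]
    linarith
  have hcov : Icc (-T) T ⊆ ⋃ k ∈ Finset.range n,
      Icc ((-T + (2 * (k : ℝ) + 1) * t) - t) ((-T + (2 * (k : ℝ) + 1) * t) + t) := by
    intro x hx
    obtain ⟨k, hk⟩ : ∃ k : ℕ, k = ⌊(x + T) / (2 * t)⌋₊ := ⟨_, rfl⟩
    have h0 : 0 ≤ (x + T) / (2 * t) := div_nonneg (by linarith [hx.1]) (by positivity)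
    have h1 : (k : ℝ) ≤ (x + T) / (2 * t) := by
      rw [hk]
      exact Nat.floor_le h0
    have h2 : (x + T) / (2 * t) < k + 1 := by
      rw [hk]
      exact Nat.lt_floor_add_one _
    have h3 : (x + T) / (2 * t) ≤ T / t := by
      rw [div_le_div_iff₀ (by positivity) ht]
      nlinarith [hx.2]
    rw [le_div_iff₀ (by positivity)] at h1
    rw [div_lt_iff₀ (by positivity)] at h2
    rw [mem_iUnion₂]
    refine ⟨k, ?_, ?_, ?_⟩
    · rw [Finset.mem_range]
      have : (k : ℝ) < n := by
        have h4 : (k : ℝ) ≤ (x + T) / (2 * t) := by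
          rw [hk]
          exact Nat.floor_le h0
        linarith
      exact_mod_cast this
    · linarith
    · linarith
  have h1 : ν.real (Icc (-T) T) ≤ n * ν.real (Icc (-t) t) := by
    calc ν.real (Icc (-T) T) ≤ ν.real (⋃ k ∈ Finset.range n,
          Icc ((-T + (2 * (k : ℝ) + 1) * t) - t) ((-T + (2 * (k : ℝ) + 1) * t) + t)) :=
          measureReal_mono hcov (measure_ne_top ν _)
      _ ≤ ∑ k ∈ Finset.range n, ν.real
          (Icc ((-T + (2 * (k : ℝ) + 1) * t) - t) ((-T + (2 * (k : ℝ) + 1) * t) + t)) :=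
          measureReal_biUnion_finset_le _ _
      _ ≤ ∑ k ∈ Finset.range n, ν.real (Icc (-t) t) := by
          refine Finset.sum_le_sum fun k _ => ?_
          have h2 := h ν hU t 0 (-T + (2 * (k : ℝ) + 1) * t) (by rw [abs_zero]; exact abs_nonneg _)
          rw [zero_sub, zero_add] at h2
          exact ENNReal.toReal_mono (measure_ne_top ν _) h2
      _ = n * ν.real (Icc (-t) t) := by
          rw [Finset.sum_const, Finset.card_range, nsmul_eq_mul]
  have h2 : (n : ℝ) * ν.real (Icc (-t) t) ≤ 2 * (T / t) * ν.real (Icc (-t) t) :=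
    mul_le_mul_of_nonneg_right hn2 measureReal_nonneg
  have h3 : 1 / 2 ≤ 2 * (T / t) * ν.real (Icc (-t) t) := hT.trans (h1.trans h2)
  calc t / (4 * T) = (t / (2 * T)) * (1 / 2) := by ring
    _ ≤ (t / (2 * T)) * (2 * (T / t) * ν.real (Icc (-t) t)) :=
        mul_le_mul_of_nonneg_left h3 (by positivity)
    _ = ν.real (Icc (-t) t) := by
        field_simp

theorem compl_eq (t : ℝ) : {x : ℝ | t < |x|} = (Icc (-t) t)ᶜ := by
  ext x
  rw [mem_compl_iff, mem_Icc, mem_ofPred_eq, ← abs_le, not_le]

theorem t_INI (h : S_AN) : S_INI := by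
  intro ν _ hU c hc hint
  obtain ⟨M, hM⟩ : ∃ M : ℝ, M = ∫ x, Real.exp (c * |x|) ∂ν := ⟨_, rfl⟩
  have hM1 : 1 ≤ M := by
    rw [hM]
    calc (1 : ℝ) = ∫ _, (1 : ℝ) ∂ν := by simp
      _ ≤ _ := integral_mono (integrable_const _) hint fun x => by
        show (1 : ℝ) ≤ Real.exp (c * |x|)
        exact Real.one_le_exp (by positivity)
  have hmark : ∀ t : ℝ, ν.real {x | t < |x|} ≤ M * Real.exp (-(c * t)) := by
    intro t
    have h1 := mul_meas_ge_le_integral_of_nonneg (μ := ν) (f := fun x => Real.exp (c * |x|))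
      (Eventually.of_forall fun x => (Real.exp_pos _).le) hint (Real.exp (c * t))
    rw [← hM] at h1
    have h2 : ν.real {x | t < |x|} ≤ ν.real {x | Real.exp (c * t) ≤ Real.exp (c * |x|)} := by
      refine measureReal_mono fun x hx => ?_
      rw [mem_ofPred_eq] at hx ⊢
      exact Real.exp_le_exp.2 (mul_le_mul_of_nonneg_left (le_of_lt hx) hc.le)
    rw [Real.exp_neg, ← div_eq_mul_inv, le_div_iff₀ (Real.exp_pos _), mul_comm]
    exact (mul_le_mul_of_nonneg_left h2 (Real.exp_pos _).le).trans h1
  obtain ⟨T, hT⟩ : ∃ T : ℝ, T = 2 * M / c := ⟨_, rfl⟩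
  have hT0 : 0 < T := by rw [hT]; positivity
  have hcT : c * T = 2 * M := by rw [hT]; field_simp
  have hhalf : 1 / 2 ≤ ν.real (Icc (-T) T) := by
    have h1 := hmark T
    rw [compl_eq, probReal_compl_eq_one_sub measurableSet_Icc, hcT] at h1
    have h2 : M * Real.exp (-(2 * M)) ≤ 1 / 2 := by
      rw [Real.exp_neg, ← div_eq_mul_inv, div_le_iff₀ (Real.exp_pos _)]
      have := Real.add_one_le_exp (2 * M)
      linarith
    linarith
  refine ⟨24 * M / c, by positivity, fun t ht => ?_⟩
  have hdiv : t / (24 * M / c) = c * t / (24 * M) := by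
    field_simp
  rw [hdiv]
  have hs0 : 0 ≤ c * t / (24 * M) := by positivity
  have hgoal : ν.real {x | t < |x|} ≤ Ht (c * t / (24 * M)) := by
    rcases eq_or_lt_of_le ht with rfl | ht0
    · have h1 := Ht_ge (c * 0 / (24 * M)) hs0
      have h2 : ν.real {x | 0 < |x|} ≤ 1 := measureReal_le_one
      have h3 : c * 0 / (24 * M) = 0 := by ring
      rw [h3] at h1 ⊢
      linarith
    · rcases le_or_gt t T with htT | htT
      · have h1 := low h ν hU T t ht0 htT hhalf
        rw [compl_eq, probReal_compl_eq_one_sub measurableSet_Icc]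
        refine le_trans ?_ (Ht_ge _ hs0)
        have h2 : t / (4 * T) = 3 * (c * t / (24 * M)) := by
          rw [hT]
          field_simp
          ring
        linarith
      · refine (hmark t).trans (le_trans ?_ (Ht_ge_exp _ hs0))
        have h1 : M ≤ Real.exp (c * t / 2) := by
          have h2 : c * T ≤ c * t := mul_le_mul_of_nonneg_left htT.le hc.le
          have h3 := Real.add_one_le_exp (c * t / 2)
          linarith
        calc M * Real.exp (-(c * t)) ≤ Real.exp (c * t / 2) * Real.exp (-(c * t)) :=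
              mul_le_mul_of_nonneg_right h1 (Real.exp_pos _).le
          _ = Real.exp (-(c * t / 2)) := by
              rw [← Real.exp_add]
              congr 1
              ring
          _ ≤ Real.exp (-(2 * (c * t / (24 * M)))) := by
              refine Real.exp_le_exp.2 (neg_le_neg ?_)
              have h4 : 2 * (c * t / (24 * M)) = c * t / (12 * M) := by
                field_simp
                ring
              rw [h4]
              refine div_le_div_of_nonneg_left (by positivity) (by norm_num) ?_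
              linarith
  rw [measureReal_def] at hgoal
  exact (ENNReal.le_ofReal_iff_toReal_le (measure_ne_top ν _)
    (ENNReal.toReal_nonneg.trans hgoal)).2 hgoal

theorem t_GS : S_GS := by
  constructor
  · refine ⟨ProbabilityTheory.gaussianPDF 0 1, ProbabilityTheory.measurable_gaussianPDF 0 1, ?_, ?_,
      ProbabilityTheory.gaussianReal_of_var_ne_zero 0 one_ne_zero⟩
    · intro x
      unfold ProbabilityTheory.gaussianPDF ProbabilityTheory.gaussianPDFReal
      simp
    · intro x hx y hy hxy
      unfold ProbabilityTheory.gaussianPDF ProbabilityTheory.gaussianPDFReal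
      rw [mem_Ioi] at hx hy
      refine ENNReal.ofReal_le_ofReal ?_
      refine mul_le_mul_of_nonneg_left (Real.exp_le_exp.2 ?_) (by positivity)
      rw [sub_zero, sub_zero]
      refine div_le_div_of_nonneg_right ?_ (by positivity)
      nlinarith
  · have h1 : Integrable (fun x : ℝ => Real.exp (1 * x)) (ProbabilityTheory.gaussianReal 0 1) :=
      ProbabilityTheory.integrable_exp_mul_gaussianReal 1
    have h2 : Integrable (fun x : ℝ => Real.exp (-1 * x)) (ProbabilityTheory.gaussianReal 0 1) :=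
      ProbabilityTheory.integrable_exp_mul_gaussianReal (-1)
    refine (h1.add h2).mono' (by fun_prop) (Eventually.of_forall fun x => ?_)
    rw [Real.norm_eq_abs, abs_of_pos (Real.exp_pos _)]
    show Real.exp (1 * |x|) ≤ Real.exp (1 * x) + Real.exp (-1 * x)
    rcases abs_cases x with ⟨hx, _⟩ | ⟨hx, _⟩
    · rw [hx]
      have := Real.exp_pos (-1 * x)
      linarith
    · rw [hx]
      have := Real.exp_pos (1 * x)
      have h3 : 1 * -x = -1 * x := by ring
      rw [h3]
      linarith

end Pool.Agent.N342.EA
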