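import Pool.Agent.N964.GX.Stm

set_option autoImplicit false

/-!
# Small heights (part G of the project GX)
-/

namespace Pool.Agent.N342.GXLow

open Complex Filter Topology Set
open Pool.Agent.N964.GX

/-- near every point the entire function is bounded below by a power of the distance -/
lemma low_at {E : ℂ → ℂ} (hE : Differentiable ℂ E) (h1E : E 1 ≠ 0) (w₀ : ℂ) :
    ∃ (n : ℕ) (c : ℝ), 0 < c ∧ ∀ᶠ z in 𝓝 w₀, c * ‖z - w₀‖ ^ n ≤ ‖E z‖ := by
  have ha : AnalyticAt ℂ E w₀ := hE.analyticAt w₀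
  have hne : ¬ ∀ᶠ z in 𝓝 w₀, E z = 0 := by
    intro h
    have h1 : AnalyticOnNhd ℂ E Set.univ := fun z _ => hE.analyticAt z
    have h2 := h1.eqOn_zero_of_preconnected_of_eventuallyEq_zero isPreconnected_univ
      (Set.mem_univ w₀) h
    exact h1E (h2 (Set.mem_univ 1))
  obtain ⟨n, g, hg, hg0, heq⟩ := (ha.exists_eventuallyEq_pow_smul_nonzero_iff).2 hne
  refine ⟨n, ‖g w₀‖ / 2, by positivity, ?_⟩
  have hc : ∀ᶠ z in 𝓝 w₀, ‖g w₀‖ / 2 < ‖g z‖ :=
    hg.continuousAt.norm.eventually (lt_mem_nhds (half_lt_self (norm_pos_iff.2 hg0)))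
  filter_upwards [heq, hc] with z hz hz2
  rw [hz, smul_eq_mul, norm_mul, norm_pow, mul_comm]
  gcongr

/-- the local statement in terms of the distance to the critical line -/
def P (E : ℂ → ℂ) (S : Set ℂ) : Prop := ∃ (n : ℕ) (c : ℝ), 0 < c ∧ ∀ z ∈ S, 1 / 2 < z.re →
  z.re ≤ 3 / 2 → c * (z.re - 1 / 2) ^ n ≤ ‖E z‖

variable {E : ℂ → ℂ}

lemma P_mono {S T : Set ℂ} (h : S ⊆ T) (hT : P E T) : P E S := by
  obtain ⟨n, c, hc, H⟩ := hT
  exact ⟨n, c, hc, fun z hz => H z (h hz)⟩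

lemma P_union {S T : Set ℂ} (hS : P E S) (hT : P E T) : P E (S ∪ T) := by
  obtain ⟨n, c, hc, H⟩ := hS
  obtain ⟨m, c', hc', H'⟩ := hT
  refine ⟨max n m, min c c', lt_min hc hc', ?_⟩
  rintro z (hz | hz) h1 h2
  · have h3 : (z.re - 1 / 2) ^ max n m ≤ (z.re - 1 / 2) ^ n :=
      pow_le_pow_of_le_one (by linarith) (by linarith) (le_max_left _ _)
    have h4 := H z hz h1 h2
    have h5 : 0 ≤ (z.re - 1 / 2) ^ max n m := pow_nonneg (by linarith) _
    calc _ ≤ c * (z.re - 1 / 2) ^ n := by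
          apply mul_le_mul (min_le_left _ _) h3 h5 hc.le
      _ ≤ _ := h4
  · have h3 : (z.re - 1 / 2) ^ max n m ≤ (z.re - 1 / 2) ^ m :=
      pow_le_pow_of_le_one (by linarith) (by linarith) (le_max_right _ _)
    have h4 := H' z hz h1 h2
    have h5 : 0 ≤ (z.re - 1 / 2) ^ max n m := pow_nonneg (by linarith) _
    calc _ ≤ c' * (z.re - 1 / 2) ^ m := by
          apply mul_le_mul (min_le_right _ _) h3 h5 hc'.le
      _ ≤ _ := h4

lemma P_local (hE : Differentiable ℂ E) (hz : ∀ s : ℂ, 1 / 2 < s.re → E s ≠ 0) (w₀ : ℂ)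
    (hw : 1 / 2 ≤ w₀.re) : ∃ U ∈ 𝓝 w₀, P E U := by
  obtain ⟨n, c, hc, H⟩ := low_at hE (hz 1 (by norm_num)) w₀
  rcases hw.eq_or_lt with h | h
  · refine ⟨_, H, n, c, hc, ?_⟩
    intro z hz h1 h2
    refine le_trans ?_ (show c * ‖z - w₀‖ ^ n ≤ ‖E z‖ from hz)
    have h3 : z.re - 1 / 2 ≤ ‖z - w₀‖ := by
      have := Complex.abs_re_le_norm (z - w₀)
      rw [Complex.sub_re, ← h] at this
      exact (le_abs_self _).trans this
    have h4 : 0 ≤ z.re - 1 / 2 := by linarith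
    gcongr
  · have hne : E w₀ ≠ 0 := hz w₀ h
    have hc2 : ∀ᶠ z in 𝓝 w₀, ‖E w₀‖ / 2 < ‖E z‖ :=
      (hE w₀).continuousAt.norm.eventually
        (lt_mem_nhds (half_lt_self (norm_pos_iff.2 hne)))
    refine ⟨_, hc2, 0, ‖E w₀‖ / 2, by positivity, ?_⟩
    intro z hz _ _
    rw [pow_zero, mul_one]
    exact le_of_lt hz

theorem low : S_low := by
  intro r E hE hz R
  have hK : IsCompact (Set.Icc (1 / 2 : ℝ) (3 / 2) ×ℂ Set.Icc (-|R|) |R|) :=
    isCompact_Icc.reProdIm isCompact_Icc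
  have hP : P E (Set.Icc (1 / 2 : ℝ) (3 / 2) ×ℂ Set.Icc (-|R|) |R|) := by
    refine hK.induction_on (p := P E) ⟨0, 1, one_pos, by simp⟩ (fun S T h => P_mono h)
      (fun S T => P_union) ?_
    intro w hw
    obtain ⟨U, hU, hPU⟩ := P_local hE hz w hw.1.1
    exact ⟨U, mem_nhdsWithin_of_mem_nhds hU, hPU⟩
  obtain ⟨n, c, hc, H⟩ := hP
  obtain ⟨M, hM⟩ : ∃ M : ℝ, M = (1 + |R|) ^ r := ⟨_, rfl⟩
  have hM0 : 0 < M := by rw [hM]; positivity
  refine ⟨(n : ℝ) + |Real.log (M / c)| + 1, by positivity, ?_⟩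
  intro t δ ht hδ hδ1
  have htR : |t| ≤ |R| := ht.trans (le_abs_self R)
  set s : ℂ := 1 / 2 + δ + t * I with hs
  have hre : s.re = 1 / 2 + δ := by simp [hs]
  have him : s.im = t := by simp [hs]
  have h1 := H s ⟨⟨by rw [hre]; linarith, by rw [hre]; linarith⟩,
    ⟨by rw [him]; exact (abs_le.1 htR).1, by rw [him]; exact (abs_le.1 htR).2⟩⟩
    (by rw [hre]; linarith) (by rw [hre]; linarith)
  rw [hre, show (1 / 2 + δ - 1 / 2 : ℝ) = δ by ring] at h1
  have hcd : 0 < c * δ ^ n := by positivity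
  have h2 : ‖s - 1‖ ≤ 1 + |R| := by
    have e : s - 1 = ((δ - 1 / 2 : ℝ) : ℂ) + (t : ℂ) * I := by
      rw [hs]; push_cast; ring
    rw [e]
    refine (norm_add_le _ _).trans ?_
    rw [Complex.norm_real, norm_mul, Complex.norm_real, Complex.norm_I, mul_one,
      Real.norm_eq_abs, Real.norm_eq_abs]
    have : |δ - 1 / 2| ≤ 1 := by rw [abs_le]; constructor <;> linarith
    linarith
  have h3 : ‖fi r E s‖ ≤ M / (c * δ ^ n) := by
    rw [fi, norm_div, norm_pow, hM]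
    exact div_le_div₀ (by positivity) (pow_le_pow_left₀ (norm_nonneg _) h2 r) hcd h1
  refine h3.trans ?_
  have hlog : 0 ≤ Real.log (1 / δ) := Real.log_nonneg (by
    rw [le_div_iff₀ hδ]; linarith)
  have h4 : M / (c * δ ^ n) = Real.exp (Real.log (M / c) + n * Real.log (1 / δ)) := by
    rw [Real.exp_add, Real.exp_log (by positivity), mul_comm (n : ℝ), Real.exp_mul,
      Real.exp_log (by positivity), Real.rpow_natCast, one_div, inv_pow, div_mul_eq_div_div,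
      div_eq_mul_inv (M / c)]
  rw [h4]
  apply Real.exp_le_exp.2
  have h5 := le_abs_self (Real.log (M / c))
  have h6 : 0 ≤ |Real.log (M / c)| := abs_nonneg _
  have h7 : 0 ≤ (n : ℝ) := Nat.cast_nonneg n
  nlinarith [mul_nonneg h6 hlog, mul_nonneg h7 hlog]

end Pool.Agent.N342.GXLow
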