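import Pool.Agent.N404.LF.Stm

/-!
# LF/ISO: concentration for families of permutations
-/

set_option autoImplicit false

namespace Pool.Agent.N342.LFI

open Finset Classical Pool.Agent.N404.LF

/-- concentration -/
def Con (Y : Type) [Fintype Y] (d : Y → Y → ℝ) (V : ℝ) : Prop :=
  ∀ (lam : ℝ) (F : Y → ℝ), (∀ x y, F x - F y ≤ d x y) →
    (∑ y, Real.exp (lam * F y)) * (∑ y, Real.exp (-(lam * F y))) ≤
      (Fintype.card Y : ℝ) ^ 2 * Real.exp (lam ^ 2 * V)

theorem con_three {Y : Type} [Fintype Y] {d : Y → Y → ℝ} (hd : ∀ x y, d x y ≤ 3) :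
    Con Y d (9 / 2) := by
  intro lam F hF
  have h0 : ∀ x y, |F x - F y| ≤ 3 := fun x y => by
    rw [abs_le]
    have h1 := hF x y
    have h2 := hF y x
    have h3 := hd x y
    have h4 := hd y x
    constructor <;> linarith
  have h1 : (∑ y, Real.exp (lam * F y)) * (∑ y, Real.exp (-(lam * F y))) =
      ∑ x, ∑ y, Real.exp (lam * (F x - F y)) := by
    rw [Finset.sum_mul_sum]
    refine Finset.sum_congr rfl fun x _ => Finset.sum_congr rfl fun y _ => ?_
    rw [← Real.exp_add]
    congr 1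
    ring
  have h2 : ∑ x, ∑ y, Real.exp (lam * (F x - F y)) = ∑ x, ∑ y, Real.exp (lam * (F y - F x)) :=
    Finset.sum_comm
  have h3 : ∑ x, ∑ y, Real.exp (lam * (F x - F y)) + ∑ x, ∑ y, Real.exp (lam * (F y - F x)) =
      2 * ∑ x, ∑ y, Real.cosh (lam * (F x - F y)) := by
    rw [← Finset.sum_add_distrib, Finset.mul_sum]
    refine Finset.sum_congr rfl fun x _ => ?_
    rw [← Finset.sum_add_distrib, Finset.mul_sum]
    refine Finset.sum_congr rfl fun y _ => ?_
    rw [Real.cosh_eq]
    have h4 : lam * (F y - F x) = -(lam * (F x - F y)) := by ring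
    rw [h4]
    ring
  rw [h1]
  have h4 : ∑ x, ∑ y, Real.cosh (lam * (F x - F y)) ≤
      ∑ _x : Y, ∑ _y : Y, Real.exp (lam ^ 2 * (9 / 2)) := by
    refine Finset.sum_le_sum fun x _ => Finset.sum_le_sum fun y _ => ?_
    refine (Real.cosh_le_exp_half_sq _).trans (Real.exp_le_exp.2 ?_)
    have h5 : (F x - F y) ^ 2 ≤ 9 := by
      have h6 := h0 x y
      rw [← sq_abs]
      nlinarith [abs_nonneg (F x - F y)]
    rw [mul_pow]
    nlinarith [sq_nonneg lam]
  simp only [Finset.sum_const, Finset.card_univ, nsmul_eq_mul] at h4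
  rw [← h2] at h3
  nlinarith

theorem con_sub {Y : Type} [Fintype Y] [Subsingleton Y] {d : Y → Y → ℝ} : Con Y d 0 := by
  intro lam F _
  rw [Finset.sum_mul_sum, mul_zero, Real.exp_zero, mul_one]
  have h1 : ∀ x y : Y, Real.exp (lam * F x) * Real.exp (-(lam * F y)) = 1 := by
    intro x y
    rw [Subsingleton.elim y x, ← Real.exp_add, add_neg_cancel, Real.exp_zero]
  simp only [h1, Finset.sum_const, Finset.card_univ, nsmul_eq_mul]
  rw [mul_one, sq]

theorem con_equiv {Y Z : Type} [Fintype Y] [Fintype Z] (e : Y ≃ Z) {d : Y → Y → ℝ}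
    {D : Z → Z → ℝ} {V : ℝ} (h : Con Y d V) (hD : ∀ y y', D (e y) (e y') ≤ d y y') :
    Con Z D V := by
  intro lam F hF
  have h1 := h lam (fun y => F (e y)) (fun x y => (hF _ _).trans (hD x y))
  rw [Equiv.sum_comp e (fun z => Real.exp (lam * F z)),
    Equiv.sum_comp e (fun z => Real.exp (-(lam * F z))), Fintype.card_congr e] at h1
  exact h1

theorem con_prod {Y Z : Type} [Fintype Y] [Fintype Z] {d : Y → Y → ℝ} {e : Z → Z → ℝ}
    {V W : ℝ} {D : Y × Z → Y × Z → ℝ} (hY : Con Y d V) (hZ : Con Z e W)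
    (h1 : ∀ y y' z, D (y, z) (y', z) ≤ d y y') (h2 : ∀ y z z', D (y, z) (y, z') ≤ e z z') :
    Con (Y × Z) D (V + W) := by
  have key : ∀ (lam : ℝ) (F : Y × Z → ℝ), 0 < lam → (∀ x y, F x - F y ≤ D x y) →
      (∑ y, Real.exp (lam * F y)) * (∑ y, Real.exp (-(lam * F y))) ≤
        (Fintype.card (Y × Z) : ℝ) ^ 2 * Real.exp (lam ^ 2 * (V + W)) := by
    intro lam F hl hF
    rcases isEmpty_or_nonempty Y with hE | hE
    · simp
    set G : Z → ℝ := fun z => ∑ y, Real.exp (lam * F (y, z)) with hG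
    have hG0 : ∀ z, 0 < G z := fun z =>
      Finset.sum_pos (fun y _ => Real.exp_pos _) Finset.univ_nonempty
    set h : Z → ℝ := fun z => Real.log (G z) / lam with hh
    have hlh : ∀ z, lam * h z = Real.log (G z) := fun z => by
      rw [hh]
      field_simp
    have hexp : ∀ z, Real.exp (lam * h z) = G z := fun z => by rw [hlh, Real.exp_log (hG0 z)]
    have hLip : ∀ z z', h z - h z' ≤ e z z' := by
      intro z z'
      have h3 : G z ≤ Real.exp (lam * e z z') * G z' := by
        show ∑ y, Real.exp (lam * F (y, z)) ≤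
          Real.exp (lam * e z z') * ∑ y, Real.exp (lam * F (y, z'))
        rw [Finset.mul_sum]
        refine Finset.sum_le_sum fun y _ => ?_
        rw [← Real.exp_add]
        apply Real.exp_le_exp.2
        have h4 := hF (y, z) (y, z')
        have h5 := h2 y z z'
        nlinarith
      have h4 := Real.log_le_log (hG0 z) h3
      rw [Real.log_mul (Real.exp_pos _).ne' (hG0 z').ne', Real.log_exp, ← hlh, ← hlh] at h4
      have h5 : lam * (h z - h z') ≤ lam * e z z' := by linarith
      exact le_of_mul_le_mul_left h5 hl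
    have hK : 0 ≤ (Fintype.card Y : ℝ) ^ 2 * Real.exp (lam ^ 2 * V) := by positivity
    have hm : ∀ z, ∑ y, Real.exp (-(lam * F (y, z))) ≤
        (Fintype.card Y : ℝ) ^ 2 * Real.exp (lam ^ 2 * V) * Real.exp (-(lam * h z)) := by
      intro z
      have h3 := hY lam (fun y => F (y, z)) (fun x y => (hF _ _).trans (h1 x y z))
      have h4 : Real.exp (-(lam * h z)) = (G z)⁻¹ := by rw [Real.exp_neg, hexp]
      rw [h4, ← div_eq_mul_inv, le_div_iff₀ (hG0 z), mul_comm]
      exact h3
    have h3 := hZ lam h hLip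
    rw [Fintype.sum_prod_type_right, Fintype.sum_prod_type_right, Fintype.card_prod]
    have e1 : ∑ z, ∑ y, Real.exp (lam * F (y, z)) = ∑ z, Real.exp (lam * h z) :=
      Finset.sum_congr rfl fun z _ => (hexp z).symm
    have e2 : ∑ z, ∑ y, Real.exp (-(lam * F (y, z))) ≤
        (Fintype.card Y : ℝ) ^ 2 * Real.exp (lam ^ 2 * V) * ∑ z, Real.exp (-(lam * h z)) := by
      rw [Finset.mul_sum]
      exact Finset.sum_le_sum fun z _ => hm z
    rw [e1]
    have h5 : 0 ≤ ∑ z, Real.exp (lam * h z) := Finset.sum_nonneg fun z _ => (Real.exp_pos _).le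
    calc (∑ z, Real.exp (lam * h z)) * ∑ z, ∑ y, Real.exp (-(lam * F (y, z)))
        ≤ (∑ z, Real.exp (lam * h z)) *
          ((Fintype.card Y : ℝ) ^ 2 * Real.exp (lam ^ 2 * V) * ∑ z, Real.exp (-(lam * h z))) :=
          mul_le_mul_of_nonneg_left e2 h5
      _ = (Fintype.card Y : ℝ) ^ 2 * Real.exp (lam ^ 2 * V) *
          ((∑ z, Real.exp (lam * h z)) * ∑ z, Real.exp (-(lam * h z))) := by ring
      _ ≤ (Fintype.card Y : ℝ) ^ 2 * Real.exp (lam ^ 2 * V) *
          ((Fintype.card Z : ℝ) ^ 2 * Real.exp (lam ^ 2 * W)) :=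
          mul_le_mul_of_nonneg_left h3 hK
      _ = ((Fintype.card Y * Fintype.card Z : ℕ) : ℝ) ^ 2 * Real.exp (lam ^ 2 * (V + W)) := by
          rw [mul_add, Real.exp_add]
          push_cast
          ring
  intro lam F hF
  rcases lt_trichotomy lam 0 with hl | hl | hl
  · have h3 := key (-lam) F (by linarith) hF
    rw [mul_comm] at h3
    simpa using h3
  · subst hl
    simp only [zero_mul, neg_zero, Real.exp_zero, Finset.sum_const, Finset.card_univ,
      nsmul_eq_mul, mul_one, ne_eq, OfNat.ofNat_ne_zero, not_false_eq_true, zero_pow]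
    rw [sq]
  · exact key lam F hl hF

/-- Hamming distance of two permutations -/
noncomputable def h1 {X : Type} [Fintype X] (π π' : Equiv.Perm X) : ℕ :=
  (univ.filter fun x => π x ≠ π' x).card

theorem dec_three (n : ℕ) (p p' : Fin (n + 1)) (e : Equiv.Perm (Fin n)) :
    h1 (Equiv.Perm.decomposeFin.symm (p, e)) (Equiv.Perm.decomposeFin.symm (p', e)) ≤ 3 := by
  unfold h1
  set τ := Equiv.Perm.decomposeFin.symm ((0 : Fin (n + 1)), e) with hτ
  have h1 : (univ.filter fun x => Equiv.Perm.decomposeFin.symm (p, e) x ≠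
      Equiv.Perm.decomposeFin.symm (p', e) x) ⊆ {0, τ.symm p, τ.symm p'} := by
    intro x hx
    rw [Finset.mem_filter] at hx
    simp only [Finset.mem_insert, Finset.mem_singleton]
    rcases Fin.eq_zero_or_eq_succ x with h0 | ⟨y, rfl⟩
    · exact Or.inl h0
    right
    have h2 := hx.2
    rw [Equiv.Perm.decomposeFin_symm_apply_succ, Equiv.Perm.decomposeFin_symm_apply_succ] at h2
    have h3 : τ y.succ = (e y).succ := by
      rw [hτ, Equiv.Perm.decomposeFin_symm_apply_succ, Equiv.swap_self]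
      rfl
    by_cases h4 : (e y).succ = p
    · left
      rw [← h4, ← h3, Equiv.symm_apply_apply]
    by_cases h5 : (e y).succ = p'
    · right
      rw [← h5, ← h3, Equiv.symm_apply_apply]
    exact absurd (by
      rw [Equiv.swap_apply_of_ne_of_ne (Fin.succ_ne_zero _) h4,
        Equiv.swap_apply_of_ne_of_ne (Fin.succ_ne_zero _) h5]) h2
  refine le_trans (le_of_eq ?_) ((Finset.card_le_card h1).trans Finset.card_le_three)
  congr

theorem dec_le (n : ℕ) (p : Fin (n + 1)) (e e' : Equiv.Perm (Fin n)) :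
    h1 (Equiv.Perm.decomposeFin.symm (p, e)) (Equiv.Perm.decomposeFin.symm (p, e')) ≤
      h1 e e' := by
  unfold h1
  have h1 : (univ.filter fun x => Equiv.Perm.decomposeFin.symm (p, e) x ≠
      Equiv.Perm.decomposeFin.symm (p, e') x) ⊆
      (univ.filter fun x => e x ≠ e' x).image Fin.succ := by
    intro x hx
    rw [Finset.mem_filter] at hx
    rw [Finset.mem_image]
    rcases Fin.eq_zero_or_eq_succ x with h0 | ⟨y, rfl⟩
    · exact absurd (by rw [h0, Equiv.Perm.decomposeFin_symm_apply_zero,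
        Equiv.Perm.decomposeFin_symm_apply_zero]) hx.2
    · refine ⟨y, ?_, rfl⟩
      rw [Finset.mem_filter]
      refine ⟨Finset.mem_univ _, fun h2 => hx.2 ?_⟩
      rw [Equiv.Perm.decomposeFin_symm_apply_succ, Equiv.Perm.decomposeFin_symm_apply_succ, h2]
  refine le_trans (le_of_eq ?_)
    (((Finset.card_le_card h1).trans Finset.card_image_le).trans (le_of_eq ?_)) <;> congr

theorem con_perm (N : ℕ) :
    Con (Equiv.Perm (Fin N)) (fun π π' => (h1 π π' : ℝ)) (9 * N / 2) := by
  induction N with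
  | zero =>
    have h : Con (Equiv.Perm (Fin 0)) (fun π π' => (h1 π π' : ℝ)) 0 := con_sub
    simpa using h
  | succ n ih =>
    have h3 : Con (Fin (n + 1) × Equiv.Perm (Fin n))
        (fun a b => (h1 (Equiv.Perm.decomposeFin.symm a) (Equiv.Perm.decomposeFin.symm b) : ℝ))
        (9 / 2 + 9 * n / 2) :=
      con_prod (d := fun _ _ => 3) (con_three (fun _ _ => le_refl _)) ih
        (fun y y' z => by exact_mod_cast dec_three n y y' z)
        (fun y z z' => by exact_mod_cast dec_le n y z z')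
    have h4 : Con (Equiv.Perm (Fin (n + 1))) (fun π π' => (h1 π π' : ℝ))
        (9 / 2 + 9 * n / 2) :=
      con_equiv (Equiv.Perm.decomposeFin (n := n)).symm h3 (fun _ _ => le_refl _)
    have h5 : (9 * ((n + 1 : ℕ) : ℝ) / 2) = 9 / 2 + 9 * n / 2 := by
      push_cast
      ring
    rw [h5]
    exact h4

theorem con_pi {Y : Type} [Fintype Y] {d : Y → Y → ℝ} {V : ℝ} (hY : Con Y d V)
    (hd0 : ∀ y, d y y = 0) (m : ℕ) :
    Con (Fin m → Y) (fun f g => ∑ i, d (f i) (g i)) (m * V) := by
  induction m with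
  | zero =>
    have h : Con (Fin 0 → Y) (fun f g => ∑ i, d (f i) (g i)) 0 := con_sub
    simpa using h
  | succ n ih =>
    have h3 : Con (Y × (Fin n → Y))
        (fun a b => d a.1 b.1 + ∑ i, d (a.2 i) (b.2 i)) (V + n * V) :=
      con_prod hY ih (fun y y' z => by simp [hd0]) (fun y z z' => by simp [hd0])
    have h4 : Con (Fin (n + 1) → Y) (fun f g => ∑ i, d (f i) (g i)) (V + n * V) :=
      con_equiv (Fin.consEquiv (fun _ : Fin (n + 1) => Y)) h3 (fun a b => by
        rw [Fin.sum_univ_succ]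
        simp [Fin.consEquiv])
    have h5 : (((n + 1 : ℕ) : ℝ) * V) = V + n * V := by
      push_cast
      ring
    rw [h5]
    exact h4

theorem con_fam (I : Type) [Fintype I] [DecidableEq I] (N : ℕ) :
    Con (I → Equiv.Perm (Fin N)) (fun π π' => (hd π π' : ℝ))
      (Fintype.card I * (9 * N / 2)) := by
  have h3 := con_pi (con_perm N) (fun y => by simp [h1]) (Fintype.card I)
  refine con_equiv (Equiv.arrowCongr (Fintype.equivFin I) (Equiv.refl _)).symm h3
    (fun π π' => ?_)
  have h4 : (hd ((Equiv.arrowCongr (Fintype.equivFin I) (Equiv.refl _)).symm π)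
      ((Equiv.arrowCongr (Fintype.equivFin I) (Equiv.refl _)).symm π') : ℝ) =
      ((∑ i : I, h1 (π (Fintype.equivFin I i)) (π' (Fintype.equivFin I i)) : ℕ) : ℝ) := by
    congr 1
    unfold hd h1
    rw [Finset.card_filter, Fintype.sum_prod_type]
    refine Finset.sum_congr rfl fun i _ => ?_
    rw [Finset.card_filter]
    rfl
  rw [h4]
  push_cast
  rw [Equiv.sum_comp (Fintype.equivFin I) (fun i => (h1 (π i) (π' i) : ℝ))]

theorem hd_tri {I X : Type} [Fintype I] [Fintype X] (π ρ σ : I → Equiv.Perm X) :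
    hd π σ ≤ hd π ρ + hd ρ σ := by
  unfold hd
  refine (Finset.card_le_card ?_).trans (Finset.card_union_le _ _)
  intro p hp
  simp only [Finset.mem_filter, Finset.mem_univ, true_and, Finset.mem_union] at hp ⊢
  by_contra hcon
  push Not at hcon
  exact hp (hcon.1.trans hcon.2)

theorem main : S_ISO := by
  intro I _ _ N A t ht
  set B := univ.filter fun π : I → Equiv.Perm (Fin N) => ∀ π' ∈ A, t ≤ hd π π' with hB
  rcases A.eq_empty_or_nonempty with hA | hA
  · rw [hA]
    simp only [Finset.card_empty, Nat.cast_zero, zero_mul]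
    positivity
  set F : (I → Equiv.Perm (Fin N)) → ℝ := fun π => A.inf' hA (fun π' => (hd π π' : ℝ)) with hF
  have hLip : ∀ x y, F x - F y ≤ (hd x y : ℝ) := by
    intro x y
    obtain ⟨z, hz, hz1⟩ := Finset.exists_mem_eq_inf' hA (fun π' => (hd y π' : ℝ))
    have h2 : F x ≤ (hd x z : ℝ) := Finset.inf'_le (fun π' => (hd x π' : ℝ)) hz
    have h3 : F y = (hd y z : ℝ) := hz1
    have h4 : ((hd x z : ℕ) : ℝ) ≤ hd x y + hd y z := by exact_mod_cast hd_tri x y z
    linarith
  have hF0 : ∀ x ∈ A, F x ≤ 0 := by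
    intro x hx
    have h2 : F x ≤ (hd x x : ℝ) := Finset.inf'_le (fun π' => (hd x π' : ℝ)) hx
    have h3 : hd x x = 0 := by simp [hd]
    rw [h3] at h2
    simpa using h2
  have hFt : ∀ x ∈ B, t ≤ F x := by
    intro x hx
    rw [hB, Finset.mem_filter] at hx
    exact Finset.le_inf' hA _ hx.2
  set S : ℝ := N * Fintype.card I with hS
  have hS0 : 0 ≤ S := by positivity
  set lam : ℝ := t / (9 * S) with hlam
  have hlam0 : 0 ≤ lam := by positivity
  have h1 := con_fam I N lam F hLip
  have h2 : (A.card : ℝ) ≤ ∑ y, Real.exp (-(lam * F y)) := by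
    calc (A.card : ℝ) = ∑ _y ∈ A, (1 : ℝ) := by simp
      _ ≤ ∑ y ∈ A, Real.exp (-(lam * F y)) := Finset.sum_le_sum fun y hy => by
          apply Real.one_le_exp
          have := hF0 y hy
          nlinarith
      _ ≤ ∑ y, Real.exp (-(lam * F y)) :=
          Finset.sum_le_sum_of_subset_of_nonneg (Finset.subset_univ _)
            fun y _ _ => (Real.exp_pos _).le
  have h3 : (B.card : ℝ) * Real.exp (lam * t) ≤ ∑ y, Real.exp (lam * F y) := by
    calc (B.card : ℝ) * Real.exp (lam * t) = ∑ _y ∈ B, Real.exp (lam * t) := by simp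
      _ ≤ ∑ y ∈ B, Real.exp (lam * F y) := Finset.sum_le_sum fun y hy => by
          apply Real.exp_le_exp.2
          exact mul_le_mul_of_nonneg_left (hFt y hy) hlam0
      _ ≤ ∑ y, Real.exp (lam * F y) :=
          Finset.sum_le_sum_of_subset_of_nonneg (Finset.subset_univ _)
            fun y _ _ => (Real.exp_pos _).le
  have hcard : (Fintype.card (I → Equiv.Perm (Fin N)) : ℝ) =
      (N.factorial : ℝ) ^ Fintype.card I := by
    rw [Fintype.card_fun, Fintype.card_perm, Fintype.card_fin]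
    push_cast
    rfl
  rw [hcard] at h1
  have h4 : (A.card : ℝ) * ((B.card : ℝ) * Real.exp (lam * t)) ≤
      ((N.factorial : ℝ) ^ Fintype.card I) ^ 2 *
        Real.exp (lam ^ 2 * (Fintype.card I * (9 * N / 2))) := by
    refine le_trans ?_ h1
    rw [mul_comm (∑ y, Real.exp (lam * F y))]
    exact mul_le_mul h2 h3 (by positivity) ((Nat.cast_nonneg _).trans h2)
  have h5 : lam ^ 2 * (Fintype.card I * (9 * N / 2)) = -(t ^ 2 / (18 * S)) + lam * t := by
    have h6 : (Fintype.card I : ℝ) * (9 * N / 2) = 9 / 2 * S := by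
      rw [hS]
      ring
    rw [h6, hlam]
    rcases hS0.eq_or_lt with h7 | h7
    · rw [← h7]
      simp
    · field_simp
      ring
  rw [h5, Real.exp_add, ← mul_assoc, ← mul_assoc] at h4
  exact le_of_mul_le_mul_right h4 (Real.exp_pos _)

end Pool.Agent.N342.LFI
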