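import Pool.Agent.N342.LI_DIR0
import Pool.Agent.N804.LI.StmE

/-! # Project LI, part DIR: the L-functions of the characters modulo `q` -/

set_option autoImplicit false

namespace Pool.Agent.N342.LI_DIR

open Complex Filter Topology DirichletCharacter
open Pool.Agent.Y23.G (LFun)
open Pool.Agent.W355.UN Pool.Agent.TH839.NA Pool.Agent.W355.LJ
open scoped ComplexConjugate

/-- the traces, with the value at `0` set to `0` -/
noncomputable def zc (c : ℕ → ℂ) (n : ℕ) : ℂ := if n = 0 then 0 else c n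

lemma rawT_half {m r : ℕ} {N : ℝ} {a : Fin m → ℂ} {b c : ℕ → ℂ} {X : ℂ → ℂ}
    (h : RawT 0 m r N a b c X) : RawT (1 / 2) m r N a b (zc c) X := by
  refine ⟨h.hm, h.hr, h.hN, by norm_num, by norm_num, h.re_ge, h.entire, h.order, h.fe, h.one,
    fun n => ?_, fun n hn => ?_, h.eq⟩
  · unfold zc
    split_ifs with h0
    · rw [norm_zero]
      positivity
    · have h1 := h.cb n
      rw [Real.rpow_zero, mul_one] at h1
      have h2 : (1 : ℝ) ≤ (n : ℝ) ^ (1 / 2 : ℝ) :=
        Real.one_le_rpow (by exact_mod_cast Nat.one_le_iff_ne_zero.2 h0) (by norm_num)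
      have h3 : (0 : ℝ) ≤ m := Nat.cast_nonneg m
      nlinarith
  · rw [h.conv n hn]
    refine Finset.sum_congr rfl fun d hd => ?_
    have h0 : d ≠ 0 := (Nat.pos_of_mem_divisors hd).ne'
    unfold zc
    rw [if_neg h0]

lemma rawT_zero {m r : ℕ} {N : ℝ} {a : Fin m → ℂ} {b c : ℕ → ℂ} {X : ℂ → ℂ}
    (h : Raw m r N a b c X) : RawT 0 m r N a b c X :=
  ⟨h.hm, h.hr, h.hN, le_rfl, one_pos, h.re_ge, h.entire, h.order, h.fe, h.one,
    fun n => by rw [Real.rpow_zero, mul_one]; exact h.cb n, h.conv, h.eq⟩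

/-- changing the level -/
lemma chl {M N : ℕ} [NeZero M] [NeZero N] (hMN : M ∣ N) (ψ : DirichletCharacter ℂ M) {s : ℂ}
    (hs : 0 < s.re) (hs1 : s ≠ 1) :
    analyticOrderNatAt (LFunction (changeLevel hMN ψ)) s = analyticOrderNatAt (LFunction ψ) s ∧
      (LFunction (changeLevel hMN ψ) s = 0 ↔ LFunction ψ s = 0) := by
  refine ord_mul (H := fun s : ℂ => ∏ p ∈ N.primeFactors, (1 - ψ p * (p : ℂ) ^ (-s)))
    (lf_an _ hs1) (eul_an _ _ _) (eul_ne _ _ hs) ?_
  have h1 : ∀ᶠ z in 𝓝 s, z ≠ 1 := isOpen_compl_singleton.mem_nhds hs1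
  filter_upwards [h1] with z hz
  exact LFunction_changeLevel hMN ψ (s := z) (.inr hz)

lemma ne_one {s : ℂ} (h : s.re < 1) : s ≠ 1 := by
  rintro rfl
  simp at h

lemma half_nhds {s : ℂ} (h : 0 < s.re) : ∀ᶠ z in 𝓝 s, 0 < z.re :=
  (Complex.continuous_re.tendsto s).eventually (lt_mem_nhds h)

/-- the zeta function -/
theorem one_case (q : ℕ) [NeZero q] : ∃ L : LFun,
    (∀ s : ℂ, 0 < s.re → s.re < 1 →
      analyticOrderNatAt L.X s = analyticOrderNatAt (LFunction (1 : DirichletCharacter ℂ q)) s) ∧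
    (∀ s : ℂ, 0 < s.re → s.re < 1 →
      (L.X s = 0 ↔ LFunction (1 : DirichletCharacter ℂ q) s = 0)) ∧
    (∀ s : ℂ, L.X s = 0 → 0 < s.re ∧ s.re < 1) ∧ L.r = 1 ∧ (∀ n : ℕ, n ≠ 0 → L.c n = 1) ∧
    L.c 0 = 0 := by
  have hraw : RawT (1 / 2) ([0] : List ℂ).length 1 1 (fun j => ([0] : List ℂ).get j) (fun _ => 1)
      (zc fun _ => 1) (fun s => s * (s - 1) * completedRiemannZeta₀ s + 1) :=
    rawT_half (rawT_zero zeta_raw)
  have hstr : ∀ j : Fin ([0] : List ℂ).length, -1 / 2 < (([0] : List ℂ).get j).re := by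
    intro j
    have h1 := List.get_mem ([0] : List ℂ) j
    rw [List.mem_singleton] at h1
    rw [h1]
    norm_num
  have key : ∀ s : ℂ, 0 < s.re → s.re < 1 →
      analyticOrderNatAt (fun s : ℂ => s * (s - 1) * completedRiemannZeta₀ s + 1) s =
        analyticOrderNatAt (LFunction (1 : DirichletCharacter ℂ q)) s ∧
      (s * (s - 1) * completedRiemannZeta₀ s + 1 = 0 ↔
        LFunction (1 : DirichletCharacter ℂ q) s = 0) := by
    intro s h0 h1
    have hs1 := ne_one h1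
    have e1 := chl (Nat.one_dvd q) (1 : DirichletCharacter ℂ 1) h0 hs1
    rw [changeLevel_one] at e1
    have hs0 : s ≠ 0 := fun h => by rw [h] at h0; norm_num at h0
    have e2 := ord_mul (F := fun s : ℂ => s * (s - 1) * completedRiemannZeta₀ s + 1)
      (G := LFunction (1 : DirichletCharacter ℂ 1)) (H := fun s : ℂ => s * (s - 1) * Gammaℝ (s + 0))
      (s := s) (lf_an _ hs1)
      (((analyticAt_id).mul (analyticAt_id.sub analyticAt_const)).mul
        (gam_an (by rw [add_zero]; exact h0)))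
      (mul_ne_zero (mul_ne_zero hs0 (sub_ne_zero.2 hs1)) (gam_ne (by rw [add_zero]; exact h0)))
      (by
        filter_upwards [isOpen_compl_singleton.mem_nhds hs1, half_nhds h0] with z hz hz0
        rw [LFunction_modOne_eq, add_zero]
        exact zeta_fac hz0 hz)
    exact ⟨e2.1.trans e1.1.symm, e2.2.trans e1.2.symm⟩
  refine ⟨⟨([0] : List ℂ).length, 1, 1, fun j => ([0] : List ℂ).get j, fun _ => 1, zc fun _ => 1,
    fun s => s * (s - 1) * completedRiemannZeta₀ s + 1, hraw, hstr⟩, fun s h0 h1 => (key s h0 h1).1,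
    fun s h0 h1 => (key s h0 h1).2, fun s hs => ?_, rfl, fun n hn => if_neg hn,
    show zc _ 0 = 0 from if_pos rfl⟩
  refine strip hraw.fe (fun z hz => ?_) hs
  rcases eq_or_ne z 1 with rfl | hz1
  · simp
  · show z * (z - 1) * completedRiemannZeta₀ z + 1 ≠ 0
    have hz0 : 0 < z.re := by linarith
    have hz00 : z ≠ 0 := fun h => by rw [h] at hz0; norm_num at hz0
    rw [zeta_fac hz0 hz1]
    exact mul_ne_zero (riemannZeta_ne_zero_of_one_le_re hz)
      (mul_ne_zero (mul_ne_zero hz00 (sub_ne_zero.2 hz1)) (Gammaℝ_ne_zero_of_re_pos hz0))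

lemma parD_nonneg {N : ℕ} (χ : DirichletCharacter ℂ N) : 0 ≤ parD χ := by
  unfold parD
  split_ifs <;> norm_num

/-- the primitive characters -/
theorem prim_case (f : ℕ) [NeZero f] (ψ : DirichletCharacter ℂ f) (hf : 1 < f)
    (hp : ψ.IsPrimitive) : ∃ L : LFun,
    (∀ s : ℂ, 0 < s.re → s.re < 1 →
      analyticOrderNatAt L.X s = analyticOrderNatAt (LFunction ψ) s) ∧
    (∀ s : ℂ, 0 < s.re → s.re < 1 → (L.X s = 0 ↔ LFunction ψ s = 0)) ∧
    (∀ s : ℂ, L.X s = 0 → 0 < s.re ∧ s.re < 1) ∧ L.r = 0 ∧ (∀ n : ℕ, n ≠ 0 → L.c n = ψ (n : ZMod f)) ∧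
    L.c 0 = 0 := by
  obtain ⟨X, hX⟩ := dir_raw f ψ hf hp
  have hψ : ψ ≠ 1 := by
    intro h
    have h1 := eq_one_iff_conductor_eq_one.1 h
    rw [hp] at h1
    omega
  have hf0 : (0 : ℝ) < f := by exact_mod_cast (by omega : 0 < f)
  have hraw : RawT (1 / 2) ([(parD ψ : ℂ)] : List ℂ).length 0 f
      (fun j => ([(parD ψ : ℂ)] : List ℂ).get j) (fun n => ψ (n : ZMod f))
      (zc fun n => ψ (n : ZMod f)) X :=
    rawT_half (rawT_zero hX)
  have hstr : ∀ j : Fin ([(parD ψ : ℂ)] : List ℂ).length,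
      -1 / 2 < (([(parD ψ : ℂ)] : List ℂ).get j).re := by
    intro j
    have h1 := List.get_mem ([(parD ψ : ℂ)] : List ℂ) j
    rw [List.mem_singleton] at h1
    rw [h1, Complex.ofReal_re]
    linarith [parD_nonneg ψ]
  have hre : ∀ s : ℂ, 0 < s.re → 0 < (s + (parD ψ : ℂ)).re := fun s hs => by
    rw [add_re, ofReal_re]
    linarith [parD_nonneg ψ]
  have hX2 : ∀ s : ℂ, 0 < s.re →
      X s = LFunction ψ s * ((((f : ℝ) : ℂ)) ^ (s / 2) * Gammaℝ (s + (parD ψ : ℂ))) := by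
    refine ident (G := fun s : ℂ =>
      LFunction ψ s * ((((f : ℝ) : ℂ)) ^ (s / 2) * Gammaℝ (s + (parD ψ : ℂ)))) hraw.entire
      (fun s hs => ?_) ?_
    · exact ((differentiable_LFunction hψ).analyticAt s).mul
        ((pow_an hf0 s).mul (gam_an (hre s hs)))
    · obtain ⟨σ, hσ⟩ := hraw.eq
      refine ⟨max σ 2, fun s hs => ?_⟩
      have h1 : σ ≤ s.re := (le_max_left _ _).trans hs
      have h2 : 1 < s.re := by linarith [(le_max_right σ 2).trans hs]
      rw [hσ s h1, prod_get [(parD ψ : ℂ)] (fun a : ℂ => Gammaℝ (s + a)), pow_zero, one_mul,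
        LFunction_eq_LSeries ψ h2]
      simp only [List.map_cons, List.map_nil, List.prod_cons, List.prod_nil, mul_one]
      ring
  have hH : ∀ s : ℂ, 0 < s.re →
      (((f : ℝ) : ℂ)) ^ (s / 2) * Gammaℝ (s + (parD ψ : ℂ)) ≠ 0 := fun s hs =>
    mul_ne_zero (pow_ne hf0 s) (gam_ne (hre s hs))
  have key : ∀ s : ℂ, 0 < s.re →
      analyticOrderNatAt X s = analyticOrderNatAt (LFunction ψ) s ∧
      (X s = 0 ↔ LFunction ψ s = 0) := by
    intro s h0
    refine ord_mul (G := LFunction ψ)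
      (H := fun s : ℂ => (((f : ℝ) : ℂ)) ^ (s / 2) * Gammaℝ (s + (parD ψ : ℂ)))
      ((differentiable_LFunction hψ).analyticAt s) ((pow_an hf0 s).mul (gam_an (hre s h0)))
      (hH s h0) ?_
    filter_upwards [half_nhds h0] with z hz
    exact hX2 z hz
  refine ⟨⟨([(parD ψ : ℂ)] : List ℂ).length, 0, f, fun j => ([(parD ψ : ℂ)] : List ℂ).get j,
    fun n => ψ (n : ZMod f), zc fun n => ψ (n : ZMod f), X, hraw, hstr⟩,
    fun s h0 _ => (key s h0).1, fun s h0 _ => (key s h0).2, fun s hs => ?_, rfl,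
    fun n hn => if_neg hn, show zc _ 0 = 0 from if_pos rfl⟩
  refine strip hraw.fe (fun z hz h => ?_) hs
  have h1 := (key z (by linarith)).2.1 h
  exact LFunction_ne_zero_of_one_le_re ψ (.inl hψ) hz h1

theorem main : Pool.Agent.N804.LI.S_DIR := by
  intro q _ χ
  have : NeZero χ.conductor := ⟨conductor_ne_zero χ⟩
  by_cases hχ : χ = 1
  · subst hχ
    obtain ⟨L, h1, h2, h3, h4, h5, h6⟩ := one_case q
    refine ⟨L, h1, h2, h3, ⟨fun _ => h4, fun h => absurd rfl h⟩, fun n hn hc => ?_, fun n => ?_⟩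
    · rw [h5 n hn, MulChar.one_apply]
      exact (ZMod.isUnit_iff_coprime n q).2 hc
    · rcases eq_or_ne n 0 with rfl | hn
      · rw [h6, norm_zero]
        exact zero_le_one
      · rw [h5 n hn, norm_one]
  · have hc1 : χ.conductor ≠ 1 := fun h => hχ (eq_one_iff_conductor_eq_one.2 h)
    have hc0 : χ.conductor ≠ 0 := conductor_ne_zero χ
    obtain ⟨L, h1, h2, h3, h4, h5, h6⟩ := prim_case χ.conductor χ.primitiveCharacter (by omega)
      (primitiveCharacter_isPrimitive χ)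
    refine ⟨L, fun s h0 hs => ?_, fun s h0 hs => ?_, h3, ⟨fun h => absurd h hχ, fun _ => h4⟩,
      fun n hn hc => ?_, fun n => ?_⟩
    · rw [h1 s h0 hs]
      exact (prim χ h0 (ne_one hs)).1.symm
    · rw [h2 s h0 hs]
      exact (prim χ h0 (ne_one hs)).2.symm
    · rw [h5 n hn]
      have h7 := primitiveCharacter_apply_of_isCoprime χ (a := (n : ℤ))
        (Nat.isCoprime_iff_coprime.2 hc)
      simpa using h7
    · rcases eq_or_ne n 0 with rfl | hn
      · rw [h6, norm_zero]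
        exact zero_le_one
      · rw [h5 n hn]
        exact χ.primitiveCharacter.norm_le_one _

end Pool.Agent.N342.LI_DIR
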