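import Mathlib

/-! # Dirichlet L-functions: imprimitive characters, the zeros in the strip -/

set_option autoImplicit false

namespace Pool.Agent.N342.LI_DIR

open Complex Filter Topology DirichletCharacter
open scoped ComplexConjugate

/-- a nonvanishing factor changes neither the zeros nor their orders -/
lemma ord_mul {F G H : ℂ → ℂ} {s : ℂ} (hG : AnalyticAt ℂ G s) (hH : AnalyticAt ℂ H s)
    (h0 : H s ≠ 0) (h : F =ᶠ[𝓝 s] fun z => G z * H z) :
    analyticOrderNatAt F s = analyticOrderNatAt G s ∧ (F s = 0 ↔ G s = 0) := by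
  have h1 : analyticOrderAt F s = analyticOrderAt G s := by
    rw [analyticOrderAt_congr h]
    have h2 : analyticOrderAt (G * H) s = analyticOrderAt G s + analyticOrderAt H s :=
      analyticOrderAt_mul hG hH
    have h3 : analyticOrderAt H s = 0 := analyticOrderAt_eq_zero.2 (Or.inr h0)
    rw [h3, add_zero] at h2
    exact h2
  refine ⟨?_, ?_⟩
  · unfold analyticOrderNatAt
    rw [h1]
  · rw [h.self_of_nhds]
    simp [h0]

/-- the Euler factors at the primes dividing the modulus -/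
lemma eul_ne {f : ℕ} (ψ : DirichletCharacter ℂ f) (q : ℕ) {s : ℂ} (hs : 0 < s.re) :
    ∏ p ∈ q.primeFactors, (1 - ψ p * (p : ℂ) ^ (-s)) ≠ 0 := by
  refine Finset.prod_ne_zero_iff.2 fun p hp => ?_
  have hp' := Nat.prime_of_mem_primeFactors hp
  intro h
  have h1 : ψ p * (p : ℂ) ^ (-s) = 1 := (sub_eq_zero.1 h).symm
  have h2 : ‖ψ p * (p : ℂ) ^ (-s)‖ < 1 := by
    rw [norm_mul, Complex.norm_natCast_cpow_of_pos hp'.pos, neg_re]
    have h3 := ψ.norm_le_one (p : ZMod f)
    have h4 : (p : ℝ) ^ (-s.re) < 1 :=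
      Real.rpow_lt_one_of_one_lt_of_neg (by exact_mod_cast hp'.one_lt) (by linarith)
    have h5 : 0 < (p : ℝ) ^ (-s.re) :=
      Real.rpow_pos_of_pos (by exact_mod_cast hp'.pos) _
    nlinarith [norm_nonneg (ψ (p : ZMod f))]
  rw [h1, norm_one] at h2
  exact lt_irrefl _ h2

lemma eul_an {f : ℕ} (ψ : DirichletCharacter ℂ f) (q : ℕ) (s : ℂ) :
    AnalyticAt ℂ (fun s : ℂ => ∏ p ∈ q.primeFactors, (1 - ψ p * (p : ℂ) ^ (-s))) s := by
  refine Differentiable.analyticAt (fun z => ?_) s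
  refine .fun_finsetProd fun i h ↦ ?_
  have : NeZero i := ⟨(Nat.pos_of_mem_primeFactors h).ne'⟩
  fun_prop

lemma lf_an {f : ℕ} [NeZero f] (ψ : DirichletCharacter ℂ f) {s : ℂ} (hs : s ≠ 1) :
    AnalyticAt ℂ (LFunction ψ) s := by
  have h : DifferentiableOn ℂ (LFunction ψ) {1}ᶜ := fun z hz =>
    (differentiableAt_LFunction ψ z (.inl hz)).differentiableWithinAt
  exact h.analyticAt (isOpen_compl_singleton.mem_nhds hs)

/-- the L-function of a character and of its primitive character -/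
lemma prim {q : ℕ} [NeZero q] (χ : DirichletCharacter ℂ q) [NeZero χ.conductor] {s : ℂ}
    (hs : 0 < s.re) (hs1 : s ≠ 1) :
    analyticOrderNatAt (LFunction χ) s = analyticOrderNatAt (LFunction χ.primitiveCharacter) s ∧
      (LFunction χ s = 0 ↔ LFunction χ.primitiveCharacter s = 0) := by
  refine ord_mul (H := fun s : ℂ => ∏ p ∈ q.primeFactors,
    (1 - χ.primitiveCharacter p * (p : ℂ) ^ (-s))) (lf_an _ hs1) (eul_an _ _ _)
    (eul_ne _ _ hs) ?_
  have h1 : ∀ᶠ z in 𝓝 s, z ≠ 1 := isOpen_compl_singleton.mem_nhds hs1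
  filter_upwards [h1] with z hz
  have h2 := LFunction_changeLevel χ.conductor_dvd_level χ.primitiveCharacter (s := z) (.inr hz)
  rwa [changeLevel_primitiveCharacter] at h2

lemma gam_ne {a s : ℂ} (h : 0 < (s + a).re) : Gammaℝ (s + a) ≠ 0 :=
  Gammaℝ_ne_zero_of_re_pos h

lemma gam_an {a s : ℂ} (h : 0 < (s + a).re) : AnalyticAt ℂ (fun z : ℂ => Gammaℝ (z + a)) s := by
  have hopen : IsOpen {z : ℂ | 0 < (z + a).re} :=
    isOpen_lt continuous_const (Complex.continuous_re.comp (continuous_add_const a))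
  have hd : DifferentiableOn ℂ (fun z : ℂ => Gammaℝ (z + a)) {z : ℂ | 0 < (z + a).re} := by
    intro z hz
    have hz' : 0 < (z + a).re := hz
    have e : (fun z : ℂ => Gammaℝ (z + a)) = fun z : ℂ =>
        (Real.pi : ℂ) ^ (-(z + a) / 2) * Complex.Gamma ((z + a) / 2) := by
      funext z
      rw [Gammaℝ_def]
    rw [e]
    have h1 : DifferentiableAt ℂ (fun z : ℂ => (Real.pi : ℂ) ^ (-(z + a) / 2)) z := by
      refine DifferentiableAt.const_cpow (by fun_prop) (Or.inl ?_)
      exact_mod_cast Real.pi_ne_zero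
    have h2 : DifferentiableAt ℂ (fun z : ℂ => Complex.Gamma ((z + a) / 2)) z := by
      have h3 : DifferentiableAt ℂ Complex.Gamma ((z + a) / 2) := by
        refine Complex.differentiableAt_Gamma _ fun m hm => ?_
        have h4 := congrArg Complex.re hm
        have h5 : ((z + a) / 2).re = (z + a).re / 2 := by
          rw [show (2 : ℂ) = ((2 : ℝ) : ℂ) by norm_num, Complex.div_ofReal_re]
        rw [h5, neg_re, natCast_re] at h4
        have : (0 : ℝ) ≤ m := Nat.cast_nonneg m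
        linarith
      exact h3.comp z (by fun_prop)
    exact (h1.mul h2).differentiableWithinAt
  exact hd.analyticAt (hopen.mem_nhds h)

lemma pow_an {N : ℝ} (hN : 0 < N) (s : ℂ) : AnalyticAt ℂ (fun z : ℂ => (N : ℂ) ^ (z / 2)) s := by
  refine Differentiable.analyticAt (fun z => ?_) s
  refine DifferentiableAt.const_cpow (by fun_prop) (Or.inl ?_)
  exact_mod_cast hN.ne'

lemma pow_ne {N : ℝ} (hN : 0 < N) (s : ℂ) : (N : ℂ) ^ (s / 2) ≠ 0 := by
  rw [Ne, Complex.cpow_eq_zero_iff]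
  intro h
  have : (N : ℂ) ≠ 0 := by exact_mod_cast hN.ne'
  exact this h.1

/-- the zeta case -/
lemma zeta_fac {s : ℂ} (hs : 0 < s.re) (hs1 : s ≠ 1) :
    s * (s - 1) * completedRiemannZeta₀ s + 1 = riemannZeta s * (s * (s - 1) * Gammaℝ s) := by
  have hs0 : s ≠ 0 := fun h => by rw [h] at hs; norm_num at hs
  have hG : Gammaℝ s ≠ 0 := Complex.Gammaℝ_ne_zero_of_re_pos hs
  have h2 : completedRiemannZeta s = Gammaℝ s * riemannZeta s := by
    rw [riemannZeta_def_of_ne_zero hs0]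
    field_simp
  have h3 := completedRiemannZeta_eq s
  have h4 : s - 1 ≠ 0 := sub_ne_zero.2 hs1
  have h5 : 1 - s ≠ 0 := sub_ne_zero.2 (Ne.symm hs1)
  have h6 : Gammaℝ s * riemannZeta s = completedRiemannZeta₀ s - 1 / s - 1 / (1 - s) := by
    rw [← h2, h3]
  have h7 : riemannZeta s * (s * (s - 1) * Gammaℝ s) =
      s * (s - 1) * (Gammaℝ s * riemannZeta s) := by ring
  rw [h7, h6]
  field_simp
  ring

/-- the identity theorem on the half plane -/
lemma ident {X G : ℂ → ℂ} (hX : Differentiable ℂ X)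
    (hG : ∀ s : ℂ, 0 < s.re → AnalyticAt ℂ G s)
    (h : ∃ σ : ℝ, ∀ s : ℂ, σ ≤ s.re → X s = G s) : ∀ s : ℂ, 0 < s.re → X s = G s := by
  obtain ⟨σ, hσ⟩ := h
  have h1 : AnalyticOnNhd ℂ X {s : ℂ | 0 < s.re} := fun z _ => hX.analyticAt z
  have h2 : AnalyticOnNhd ℂ G {s : ℂ | 0 < s.re} := fun z hz => hG z hz
  have hz0 : ((max σ 0 + 1 : ℝ) : ℂ) ∈ {s : ℂ | 0 < s.re} := by
    have := le_max_right σ 0
    show 0 < (((max σ 0 + 1 : ℝ) : ℂ)).re
    rw [Complex.ofReal_re]
    linarith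
  have hc : IsPreconnected {s : ℂ | 0 < s.re} := (convex_halfSpace_re_gt 0).isPreconnected
  intro s hs
  refine h1.eqOn_of_preconnected_of_eventuallyEq h2 hc hz0 ?_ hs
  have h3 : ∀ᶠ z : ℂ in 𝓝 ((max σ 0 + 1 : ℝ) : ℂ), σ < z.re := by
    have := le_max_left σ 0
    exact (Complex.continuous_re.tendsto _).eventually (lt_mem_nhds (by
      rw [Complex.ofReal_re]
      linarith))
  filter_upwards [h3] with z hz
  exact hσ z hz.le

/-- the zeros of a function with a functional equation are in the strip -/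
lemma strip {X : ℂ → ℂ} (hfe : ∃ ε : ℂ, ‖ε‖ = 1 ∧ ∀ s : ℂ, X s = ε * conj (X (1 - conj s)))
    (h : ∀ s : ℂ, 1 ≤ s.re → X s ≠ 0) {s : ℂ} (hs : X s = 0) : 0 < s.re ∧ s.re < 1 := by
  refine ⟨?_, ?_⟩
  · by_contra hc
    push Not at hc
    have h1 : 1 ≤ (1 - conj s).re := by
      rw [sub_re, one_re, conj_re]
      linarith
    obtain ⟨ε, he, h2⟩ := hfe
    have h3 := h2 s
    rw [hs] at h3
    have h4 : ε ≠ 0 := by
      rintro rfl
      rw [norm_zero] at he
      exact zero_ne_one he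
    have h5 : conj (X (1 - conj s)) = 0 := by
      rcases mul_eq_zero.1 h3.symm with h | h
      · exact absurd h h4
      · exact h
    exact h _ h1 (by simpa using h5)
  · by_contra hc
    push Not at hc
    exact h s hc hs

end Pool.Agent.N342.LI_DIR
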