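import Pool.Agent.N652.OM.Stm2
import Pool.Agent.W625.RC.UNI

/-!
# Unitary lifts in the matrix ultraproduct
-/

set_option autoImplicit false

namespace Pool.Agent.N342.OMLift

open Filter Topology Matrix
open Pool.Agent.Helper278
open scoped Matrix.Norms.L2Operator


lemma norm_one_le (n : ℕ) : ‖(1 : Mat n)‖ ≤ 1 := by
  have h := CStarRing.norm_star_mul_self (x := (1 : Mat n))
  rw [star_one, one_mul] at h
  nlinarith [norm_nonneg (1 : Mat n)]

lemma norm_un_le {n : ℕ} (V : unitaryGroup (Fin n) ℂ) : ‖(V : Mat n)‖ ≤ 1 := by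
  have h := CStarRing.norm_star_mul_self (x := (V : Mat n))
  rw [Matrix.mem_unitaryGroup_iff'.1 V.2] at h
  nlinarith [norm_nonneg (V : Mat n), norm_one_le n]

lemma bdd_norm {x : ∀ n, Mat n} (h : NormBounded x) : ∃ C : ℝ, ∀ n, ‖x n‖ ≤ C := by
  obtain ⟨C, hC⟩ := h
  exact ⟨|C|, fun n => (hC n).norm_le⟩

lemma bdd_of {x : ∀ n, Mat n} {C : ℝ} (h : ∀ n, ‖x n‖ ≤ C) : NormBounded x :=
  ⟨C, fun n => opBound_of_norm (h n)⟩

/-- the trace of `y* y` -/
lemma ntr_hs {n : ℕ} (y : Mat n) :
    ntr n (star y * y) = ((Pool.Agent.W661.RC.hs y / n : ℝ) : ℂ) := by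
  unfold ntr Pool.Agent.W661.RC.hs
  have h1 : Matrix.trace (star y * y) = ((∑ i, ∑ j, ‖y i j‖ ^ 2 : ℝ) : ℂ) := by
    rw [Finset.sum_comm]
    push_cast
    unfold Matrix.trace
    refine Finset.sum_congr rfl fun i _ => ?_
    rw [Matrix.diag_apply, Matrix.mul_apply]
    refine Finset.sum_congr rfl fun j _ => ?_
    rw [Matrix.star_apply, Complex.star_def, mul_comm, Complex.mul_conj']
  rw [h1]
  push_cast
  rw [div_eq_mul_inv, mul_comm]

theorem main : Pool.Agent.N652.OM.S_LIFT := by
  intro U Q _ _ _ _ π φ h q hq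
  obtain ⟨x, hx, hxq⟩ := h.surj q
  have huni : ∀ n, ∃ V : unitaryGroup (Fin n) ℂ,
      Pool.Agent.W661.RC.hs (x n - (V : Mat n)) ≤
        Pool.Agent.W661.RC.hs ((x n)ᴴ * x n - 1) := fun n => Pool.Agent.W625.RCUni.main n (x n)
  choose V hV using huni
  refine ⟨V, ?_⟩
  obtain ⟨C, hC⟩ := bdd_norm hx
  have hC0 : 0 ≤ C := (norm_nonneg _).trans (hC 0)
  have bV : NormBounded fun n => ((V n : unitaryGroup (Fin n) ℂ) : Mat n) :=
    bdd_of fun n => norm_un_le (V n)
  have bd : NormBounded fun n => x n - (V n : Mat n) :=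
    bdd_of (C := C + 1) fun n => (norm_sub_le _ _).trans (add_le_add (hC n) (norm_un_le (V n)))
  have bs : NormBounded fun n => star (x n) :=
    bdd_of (C := C) fun n => by rw [norm_star]; exact hC n
  have b2 : NormBounded fun n => star (x n) * x n :=
    bdd_of (C := C * C) fun n => (norm_mul_le _ _).trans
      (mul_le_mul (by rw [norm_star]; exact hC n) (hC n) (norm_nonneg _) hC0)
  have b1 : NormBounded fun n => (-1 : ℂ) • (1 : Mat n) :=
    bdd_of (C := 1) fun n => by
      rw [neg_one_smul, norm_neg]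
      exact norm_one_le n
  have b11 : NormBounded fun n => (1 : Mat n) := bdd_of fun n => norm_one_le n
  have bz : NormBounded fun n => star (x n) * x n + (-1 : ℂ) • (1 : Mat n) :=
    bdd_of (C := C * C + 1) fun n => (norm_add_le _ _).trans (add_le_add
      ((norm_mul_le _ _).trans
        (mul_le_mul (by rw [norm_star]; exact hC n) (hC n) (norm_nonneg _) hC0))
      (by rw [neg_one_smul, norm_neg]; exact norm_one_le n))
  have hz0 : π (fun n => star (x n) * x n + (-1 : ℂ) • (1 : Mat n)) = 0 := by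
    rw [h.add _ _ b2 b1, h.mul _ _ bs hx, h.star _ hx, h.smul _ _ b11, h.one, hxq,
      (Unitary.mem_iff.1 hq).1, neg_one_smul, add_neg_cancel]
  have hz := (h.ker _ bz).1 hz0
  have hy : Tendsto (fun n => ntr n (star (x n - (V n : Mat n)) * (x n - (V n : Mat n)))) U
      (𝓝 0) := by
    simp_rw [ntr_hs] at hz ⊢
    have hz' : Tendsto (fun n => Pool.Agent.W661.RC.hs
        (star (x n) * x n + (-1 : ℂ) • (1 : Mat n)) / (n : ℝ)) U (𝓝 0) := by
      have := (Complex.continuous_re.tendsto _).comp hz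
      simpa [Function.comp_def] using this
    have h2 : Tendsto (fun n => Pool.Agent.W661.RC.hs (x n - (V n : Mat n)) / (n : ℝ)) U
        (𝓝 0) := by
      refine squeeze_zero (fun n => ?_) (fun n => ?_) hz'
      · exact div_nonneg (Finset.sum_nonneg fun _ _ => Finset.sum_nonneg fun _ _ => by positivity)
          (Nat.cast_nonneg _)
      · refine div_le_div_of_nonneg_right ?_ (Nat.cast_nonneg _)
        refine (hV n).trans (le_of_eq ?_)
        rw [neg_one_smul, ← sub_eq_add_neg]
        rfl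
    have h3 := (Complex.continuous_ofReal.tendsto _).comp h2
    simpa [Function.comp_def] using h3
  have hy0 := (h.ker _ bd).2 hy
  have hsum := h.add _ _ bd bV
  have heq : (fun n => x n - (V n : Mat n) + (V n : Mat n)) = x := by
    funext n
    exact sub_add_cancel _ _
  rw [heq, hy0, zero_add, hxq] at hsum
  exact hsum.symm

end Pool.Agent.N342.OMLift
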