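import Pool.Agent.N922.PY.Stm

/-! # Project PY, parts NIC and INJ: all classes are nice; extension of the field is injective -/

set_option autoImplicit false

open Polynomial
open scoped Classical

namespace Pool.Agent.N342.PY_NIC

open Pool.Agent.N922.PY Pool.Agent.Y723.HJ

/-- a factor of degree one -/
lemma lin (h2 : S_PT) (h3 : S_INF) (h5 : S_QUA) (f : ℤ_[2][X]) [HF (fK f)] (hf : Good f)
    (a : ℚ_[2]) (w : ℚ_[2][X]) (h : (X - C a) ∣ fK f - w ^ 2) :
    Nice f (cl (mi (fK f) (X - C a) w)) := by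
  have hm : (X - C a : ℚ_[2][X]).Monic := monic_X_sub_C a
  have hd : (X - C a : ℚ_[2][X]).natDegree = 1 := natDegree_X_sub_C a
  obtain ⟨u, hu0⟩ : ∃ u : ℚ_[2][X], u = X - C a := ⟨_, rfl⟩
  rw [← hu0] at h hm hd ⊢
  rcases h5 u hm (by rw [hd]; norm_num) with ⟨u', hu', hu, hcase⟩ | ⟨v, c, hv, hvd, hu⟩ |
    ⟨b, c, hu⟩
  · have hdu : u'.natDegree = 1 := by
      rw [← hd, hu, hu'.natDegree_map]
    rcases hcase with ⟨c, hc⟩ | ⟨h2', _⟩
    · rw [hu] at h ⊢
      exact h2 f hf u' w c hu' (by omega) hc h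
    · omega
  · rw [hu] at h hm ⊢
    exact h3 f hf v c w hv hvd hm h
  · exfalso
    rw [hu, natDegree_mul (X_sub_C_ne_zero b) (X_sub_C_ne_zero c), natDegree_X_sub_C,
      natDegree_X_sub_C] at hd
    omega

theorem nic (h1 : S_REG) (h2 : S_PT) (h3 : S_INF) (h4 : S_NML) (h5 : S_QUA) : S_NIC := by
  intro f _ hf d
  have hdeg : (fK f).natDegree = 2 * 2 + 1 := by
    rw [hf.mon.natDegree_map, hf.deg]
  obtain ⟨u, v, hu, huv, hud, -, rfl⟩ := exists_reduced hdeg d
  rcases h5 u hu hud with ⟨u', hu', hue, hcase⟩ | ⟨v', c, hv, hvd, hue⟩ | ⟨a, b, hue⟩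
  · have hdu : u.natDegree = u'.natDegree := by rw [hue, hu'.natDegree_map]
    rw [hue] at huv ⊢
    rcases hcase with ⟨c, hc⟩ | ⟨hd2, hr⟩
    · exact h2 f hf u' v c hu' (by omega) hc huv
    · exact absurd huv (h1 f u' v hf hu' hd2 hr)
  · rw [hue] at hu huv ⊢
    exact h3 f hf v' c v hv hvd hu huv
  · rw [hue] at huv ⊢
    rw [mi_mul huv, cl_mul (mi_ne (X_sub_C_ne_zero a)) (mi_ne (X_sub_C_ne_zero b))]
    exact h4 f _ _ (lin h2 h3 h5 f hf a v (dvd_trans (dvd_mul_right _ _) huv))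
      (lin h2 h3 h5 f hf b v (dvd_trans (dvd_mul_left _ _) huv))

lemma cl_mi_one {L : Type} [Field L] {f : L[X]} [HF f] (v : L[X]) : cl (mi f 1 v) = 1 := by
  have h2 : mi f 1 v = Ideal.span {CC f 1} := by
    apply le_antisymm
    · have : CC f 1 = 1 := map_one _
      rw [this, Ideal.span_singleton_one]
      exact le_top
    · rw [Ideal.span_le, Set.singleton_subset_iff]
      exact mi_C_mem dvd_rfl
  rw [h2, cl_span (CC_ne one_ne_zero)]

theorem inj : S_INJ := by
  intro F L _ _ φ f f' _ _ h g hg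
  rw [injective_iff_map_eq_one]
  intro c hc
  obtain ⟨u, v, hu, huv, hud, -, rfl⟩ := exists_reduced hg c
  rw [clmap_mi φ h hu.ne_zero] at hc
  have hg' : f'.natDegree = 2 * g + 1 := by rw [← h, natDegree_map, hg]
  have h1 : (u.map φ) ∣ f' - (v.map φ) ^ 2 := by
    rw [← h, ← Polynomial.map_pow, ← Polynomial.map_sub]
    exact Polynomial.map_dvd φ huv
  obtain ⟨h4, -⟩ := reduced_unique hg' (hu.map φ) monic_one h1 (one_dvd _)
    (by rw [natDegree_map]; exact hud) (by rw [natDegree_one]; exact Nat.zero_le _)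
    (hc.trans (cl_mi_one (f := f') 0).symm)
  have h5 : u = 1 := by
    apply Polynomial.map_injective φ φ.injective
    rw [h4, Polynomial.map_one]
  rw [h5]
  exact cl_mi_one v

end Pool.Agent.N342.PY_NIC
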